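import Mathlib

/-! First-order definability of finite graphs: quantifier depth, defining sentences and the theorem
of Ehrenfeucht and Fraisse (for the own statement beside S15526, MP_e47d5b_lc). -/

set_option autoImplicit false

namespace Pool.Agent.Helper93.OWN

open FirstOrder FirstOrder.Language

/-- The quantifier depth of a first-order formula. -/
def qDepth {L : Language} {α : Type} : {n : ℕ} → L.BoundedFormula α n → ℕ
  | _, .falsum => 0
  | _, .equal _ _ => 0
  | _, .rel _ _ => 0
  | _, .imp φ ψ => max (qDepth φ) (qDepth ψ)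
  | _, .all φ => qDepth φ + 1

/-- The sentence `φ` holds in the graph `G`. -/
def Holds {V : Type} (φ : Language.graph.Sentence) (G : SimpleGraph V) : Prop :=
  @Sentence.Realize Language.graph V G.structure φ

/-- The sentence `φ` defines the graph `G`: it holds in `G`, and every finite graph in which it holds
is isomorphic to `G`. -/
def Defines {V : Type} (φ : Language.graph.Sentence) (G : SimpleGraph V) : Prop :=
  Holds φ G ∧ ∀ (W : Type) [Finite W] (H : SimpleGraph W), Holds φ H → Nonempty (G ≃g H)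

/-- truth of a formula with free variables `x₀, ..., x_{j-1}` -/
def Sat {V : Type} (G : SimpleGraph V) {j : ℕ} (φ : Language.graph.BoundedFormula Empty j)
    (a : Fin j → V) : Prop :=
  @BoundedFormula.Realize Language.graph V G.structure Empty j φ (default : Empty → V) a

section Sat

variable {V : Type} (G : SimpleGraph V) {j : ℕ}

theorem holds_iff (φ : Language.graph.Sentence) : Holds φ G ↔ Sat G φ (default : Fin 0 → V) :=
  Iff.rfl

theorem sat_falsum (a : Fin j → V) : ¬ Sat G (.falsum) a := fun h => h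

theorem sat_imp (φ ψ : Language.graph.BoundedFormula Empty j) (a : Fin j → V) :
    Sat G (φ.imp ψ) a ↔ (Sat G φ a → Sat G ψ a) := Iff.rfl

theorem sat_all (φ : Language.graph.BoundedFormula Empty (j + 1)) (a : Fin j → V) :
    Sat G φ.all a ↔ ∀ v, Sat G φ (Fin.snoc a v) := Iff.rfl

theorem sat_ex (φ : Language.graph.BoundedFormula Empty (j + 1)) (a : Fin j → V) :
    Sat G φ.ex a ↔ ∃ v, Sat G φ (Fin.snoc a v) := by
  letI := G.structure
  exact BoundedFormula.realize_ex

theorem sat_inf (φ ψ : Language.graph.BoundedFormula Empty j) (a : Fin j → V) :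
    Sat G (φ ⊓ ψ) a ↔ Sat G φ a ∧ Sat G ψ a := by
  letI := G.structure
  exact BoundedFormula.realize_inf

theorem sat_not (φ : Language.graph.BoundedFormula Empty j) (a : Fin j → V) :
    Sat G φ.not a ↔ ¬ Sat G φ a := by
  letI := G.structure
  exact BoundedFormula.realize_not

theorem sat_foldr_inf (l : List (Language.graph.BoundedFormula Empty j)) (a : Fin j → V) :
    Sat G (l.foldr (· ⊓ ·) ⊤) a ↔ ∀ φ ∈ l, Sat G φ a := by
  letI := G.structure
  exact BoundedFormula.realize_foldr_inf l _ _

theorem sat_foldr_sup (l : List (Language.graph.BoundedFormula Empty j)) (a : Fin j → V) :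
    Sat G (l.foldr (· ⊔ ·) ⊥) a ↔ ∃ φ ∈ l, Sat G φ a := by
  letI := G.structure
  exact BoundedFormula.realize_foldr_sup l _ _

/-- every term is a variable -/
theorem term_eq (t : Language.graph.Term (Empty ⊕ Fin j)) :
    ∃ i : Fin j, t = Term.var (Sum.inr i) := by
  cases t with
  | var x =>
    rcases x with x | i
    · exact x.elim
    · exact ⟨i, rfl⟩
  | func f _ => exact Empty.elim f

theorem sat_eq (i i' : Fin j) (a : Fin j → V) :
    Sat G (.equal (Term.var (Sum.inr i)) (Term.var (Sum.inr i'))) a ↔ a i = a i' := Iff.rfl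

theorem sat_adj (i i' : Fin j) (a : Fin j → V) :
    Sat G (.rel adj ![Term.var (Sum.inr i), Term.var (Sum.inr i')]) a ↔ G.Adj (a i) (a i') :=
  Iff.rfl

end Sat

/-- the pair `(a, b)` of tuples is a partial isomorphism -/
def PIso {V W : Type} (G : SimpleGraph V) (H : SimpleGraph W) {j : ℕ} (a : Fin j → V)
    (b : Fin j → W) : Prop :=
  ∀ i i' : Fin j, (a i = a i' ↔ b i = b i') ∧ (G.Adj (a i) (a i') ↔ H.Adj (b i) (b i'))

/-- a system of `k` rounds -/
def Sys {V W : Type} (G : SimpleGraph V) (H : SimpleGraph W) (k : ℕ)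
    (R : (j : ℕ) → (Fin j → V) → (Fin j → W) → Prop) : Prop :=
  (∀ j ≤ k, ∀ (a : Fin j → V) (b : Fin j → W), R j a b → PIso G H a b) ∧
  (∀ j < k, ∀ (a : Fin j → V) (b : Fin j → W), R j a b →
    (∀ v : V, ∃ w : W, R (j + 1) (Fin.snoc (α := fun _ => V) a v)
        (Fin.snoc (α := fun _ => W) b w)) ∧
    (∀ w : W, ∃ v : V, R (j + 1) (Fin.snoc (α := fun _ => V) a v)
        (Fin.snoc (α := fun _ => W) b w)))

/-- Ehrenfeucht-Fraisse, first half. -/
theorem sat_iff_of_sys {V W : Type} {G : SimpleGraph V} {H : SimpleGraph W} {k : ℕ}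
    {R : (j : ℕ) → (Fin j → V) → (Fin j → W) → Prop} (hR : Sys G H k R) :
    ∀ {j : ℕ} (φ : Language.graph.BoundedFormula Empty j), j + qDepth φ ≤ k →
      ∀ (a : Fin j → V) (b : Fin j → W), R j a b → (Sat G φ a ↔ Sat H φ b) := by
  intro j φ
  induction φ with
  | falsum => intro _ a b _; exact Iff.rfl
  | @equal j t₁ t₂ =>
    intro hj a b hab
    obtain ⟨i, rfl⟩ := term_eq t₁
    obtain ⟨i', rfl⟩ := term_eq t₂
    exact (hR.1 j (by simpa [qDepth] using hj) a b hab i i').1
  | @rel j l r ts =>
    intro hj a b hab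
    cases r with
    | adj =>
      obtain ⟨i, hi⟩ := term_eq (ts 0)
      obtain ⟨i', hi'⟩ := term_eq (ts 1)
      have hts : ts = ![Term.var (Sum.inr i), Term.var (Sum.inr i')] := by
        funext x
        fin_cases x
        · exact hi
        · exact hi'
      rw [hts]
      exact (hR.1 j (by simpa [qDepth] using hj) a b hab i i').2
  | imp φ ψ ih₁ ih₂ =>
    intro hj a b hab
    have h1 : _ + max (qDepth φ) (qDepth ψ) ≤ k := hj
    have e1 := ih₁ (by have := le_max_left (qDepth φ) (qDepth ψ); omega) a b hab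
    have e2 := ih₂ (by have := le_max_right (qDepth φ) (qDepth ψ); omega) a b hab
    rw [sat_imp, sat_imp, e1, e2]
  | @all j φ ih =>
    intro hj a b hab
    have h1 : j + (qDepth φ + 1) ≤ k := hj
    obtain ⟨f1, f2⟩ := hR.2 j (by omega) a b hab
    rw [sat_all, sat_all]
    constructor
    · intro h w
      obtain ⟨v, hv⟩ := f2 w
      exact (ih (by omega) _ _ hv).1 (h v)
    · intro h v
      obtain ⟨w, hw⟩ := f1 v
      exact (ih (by omega) _ _ hw).2 (h w)

/-- isomorphic graphs satisfy the same sentences -/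
theorem holds_iso {V W : Type} {G : SimpleGraph V} {H : SimpleGraph W} (e : G ≃g H)
    (φ : Language.graph.Sentence) : Holds φ G ↔ Holds φ H := by
  have hR : Sys G H (qDepth φ) (fun j (a : Fin j → V) (b : Fin j → W) => b = fun i => e (a i)) := by
    constructor
    · rintro j _ a b rfl i i'
      exact ⟨⟨fun h => congrArg e h, fun h => e.injective h⟩, (e.map_adj_iff).symm⟩
    · rintro j _ a b rfl
      constructor
      · intro v
        refine ⟨e v, ?_⟩
        funext i
        refine Fin.lastCases ?_ (fun i => ?_) i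
        · simp
        · simp
      · intro w
        refine ⟨e.symm w, ?_⟩
        funext i
        refine Fin.lastCases ?_ (fun i => ?_) i
        · simp
        · simp
  exact sat_iff_of_sys hR φ (by omega) default default (by funext i; exact i.elim0)

section Char

variable {n : ℕ} (T : SimpleGraph (Fin n))

open Classical in
/-- the atomic type of a tuple -/
noncomputable def atomF {j : ℕ} (a : Fin j → Fin n) : Language.graph.BoundedFormula Empty j :=
  ((List.finRange j).flatMap fun i => (List.finRange j).flatMap fun i' =>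
    [if a i = a i' then .equal (Term.var (Sum.inr i)) (Term.var (Sum.inr i'))
      else (BoundedFormula.equal (Term.var (Sum.inr i)) (Term.var (Sum.inr i'))).not,
     if T.Adj (a i) (a i') then .rel adj ![Term.var (Sum.inr i), Term.var (Sum.inr i')]
      else (BoundedFormula.rel adj ![Term.var (Sum.inr i), Term.var (Sum.inr i')]).not]).foldr
        (· ⊓ ·) ⊤

/-- the Hintikka formula of depth `r` of a tuple -/
noncomputable def chi : ℕ → {j : ℕ} → (Fin j → Fin n) → Language.graph.BoundedFormula Empty j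
  | 0, _, a => atomF T a
  | (r + 1), _, a => atomF T a ⊓
      (((List.finRange n).map fun v => (chi r (Fin.snoc a v)).ex).foldr (· ⊓ ·) ⊤ ⊓
        (((List.finRange n).map fun v => chi r (Fin.snoc a v)).foldr (· ⊔ ·) ⊥).all)

theorem sat_atomF {W : Type} (H : SimpleGraph W) {j : ℕ} (a : Fin j → Fin n) (b : Fin j → W) :
    Sat H (atomF T a) b ↔ PIso T H a b := by
  classical
  unfold atomF
  rw [sat_foldr_inf]
  simp only [List.mem_flatMap, List.mem_finRange, true_and, List.mem_cons, List.not_mem_nil,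
    or_false]
  constructor
  · intro h i i'
    constructor
    · have := h _ ⟨i, i', Or.inl rfl⟩
      by_cases e : a i = a i'
      · rw [if_pos e] at this
        exact ⟨fun _ => this, fun _ => e⟩
      · rw [if_neg e, sat_not] at this
        exact ⟨fun h => absurd h e, fun h => absurd h this⟩
    · have := h _ ⟨i, i', Or.inr rfl⟩
      by_cases e : T.Adj (a i) (a i')
      · rw [if_pos e] at this
        exact ⟨fun _ => this, fun _ => e⟩
      · rw [if_neg e, sat_not] at this
        exact ⟨fun h => absurd h e, fun h => absurd h this⟩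
  · rintro h φ ⟨i, i', rfl | rfl⟩
    · by_cases e : a i = a i'
      · rw [if_pos e]
        exact (h i i').1.1 e
      · rw [if_neg e, sat_not]
        exact fun h' => e ((h i i').1.2 h')
    · by_cases e : T.Adj (a i) (a i')
      · rw [if_pos e]
        exact (h i i').2.1 e
      · rw [if_neg e, sat_not]
        exact fun h' => e ((h i i').2.2 h')

theorem sat_chi_succ {W : Type} (H : SimpleGraph W) (r : ℕ) {j : ℕ} (a : Fin j → Fin n)
    (b : Fin j → W) :
    Sat H (chi T (r + 1) a) b ↔ PIso T H a b ∧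
      (∀ v, ∃ w, Sat H (chi T r (Fin.snoc a v)) (Fin.snoc b w)) ∧
      (∀ w, ∃ v, Sat H (chi T r (Fin.snoc a v)) (Fin.snoc b w)) := by
  rw [chi, sat_inf, sat_inf, sat_atomF, sat_foldr_inf, sat_all]
  simp only [List.mem_map, List.mem_finRange, true_and, forall_exists_index,
    forall_apply_eq_imp_iff, sat_ex, sat_foldr_sup, exists_exists_eq_and]

theorem sat_chi_self (r : ℕ) : ∀ {j : ℕ} (a : Fin j → Fin n), Sat T (chi T r a) a := by
  induction r with
  | zero => intro j a; rw [chi, sat_atomF]; exact fun _ _ => ⟨Iff.rfl, Iff.rfl⟩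
  | succ r ih =>
    intro j a
    rw [sat_chi_succ]
    exact ⟨fun _ _ => ⟨Iff.rfl, Iff.rfl⟩, fun v => ⟨v, ih _⟩, fun v => ⟨v, ih _⟩⟩

theorem qDepth_inf {L : Language} {j : ℕ} (φ ψ : L.BoundedFormula Empty j) :
    qDepth (φ ⊓ ψ) = max (qDepth φ) (qDepth ψ) := by
  change max (max (qDepth φ) (max (qDepth ψ) 0)) 0 = _
  simp

theorem qDepth_sup {L : Language} {j : ℕ} (φ ψ : L.BoundedFormula Empty j) :
    qDepth (φ ⊔ ψ) = max (qDepth φ) (qDepth ψ) := by
  change max (max (qDepth φ) 0) (qDepth ψ) = _
  simp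

theorem qDepth_foldr_inf {L : Language} {j : ℕ} (l : List (L.BoundedFormula Empty j)) (d : ℕ)
    (h : ∀ φ ∈ l, qDepth φ ≤ d) : qDepth (l.foldr (· ⊓ ·) ⊤) ≤ d := by
  induction l with
  | nil => exact Nat.zero_le d
  | cons φ l ih =>
    rw [List.foldr_cons, qDepth_inf]
    exact max_le (h φ List.mem_cons_self) (ih fun ψ hψ => h ψ (List.mem_cons_of_mem _ hψ))

theorem qDepth_foldr_sup {L : Language} {j : ℕ} (l : List (L.BoundedFormula Empty j)) (d : ℕ)
    (h : ∀ φ ∈ l, qDepth φ ≤ d) : qDepth (l.foldr (· ⊔ ·) ⊥) ≤ d := by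
  induction l with
  | nil => exact Nat.zero_le d
  | cons φ l ih =>
    rw [List.foldr_cons, qDepth_sup]
    exact max_le (h φ List.mem_cons_self) (ih fun ψ hψ => h ψ (List.mem_cons_of_mem _ hψ))

theorem qDepth_atomF {j : ℕ} (a : Fin j → Fin n) : qDepth (atomF T a) ≤ 0 := by
  classical
  unfold atomF
  apply qDepth_foldr_inf
  intro φ hφ
  simp only [List.mem_flatMap, List.mem_finRange, true_and, List.mem_cons, List.not_mem_nil,
    or_false] at hφ
  obtain ⟨i, i', rfl | rfl⟩ := hφ
  · split_ifs
    · exact le_refl _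
    · exact le_refl _
  · split_ifs
    · exact le_refl _
    · exact le_refl _

theorem qDepth_chi (r : ℕ) : ∀ {j : ℕ} (a : Fin j → Fin n), qDepth (chi T r a) ≤ r := by
  induction r with
  | zero => intro j a; exact qDepth_atomF T a
  | succ r ih =>
    intro j a
    rw [chi, qDepth_inf, qDepth_inf]
    refine max_le ((qDepth_atomF T a).trans (Nat.zero_le _)) (max_le ?_ ?_)
    · apply qDepth_foldr_inf
      intro φ hφ
      rw [List.mem_map] at hφ
      obtain ⟨v, -, rfl⟩ := hφ
      change max (max (qDepth (chi T r _)) 0 + 1) 0 ≤ r + 1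
      have := ih (Fin.snoc (α := fun _ => Fin n) a v)
      simpa using this
    · change qDepth _ + 1 ≤ r + 1
      apply Nat.succ_le_succ
      apply qDepth_foldr_sup
      intro φ hφ
      rw [List.mem_map] at hφ
      obtain ⟨v, -, rfl⟩ := hφ
      exact ih _

/-- Ehrenfeucht-Fraisse, second half: the Hintikka sentence of depth `k` gives a system of `k`
rounds. -/
theorem sys_of_chi {W : Type} (H : SimpleGraph W) (k : ℕ) :
    Sys T H k (fun j (a : Fin j → Fin n) (b : Fin j → W) => Sat H (chi T (k - j) a) b) := by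
  constructor
  · intro j _ a b h
    rcases Nat.eq_zero_or_pos (k - j) with e | e
    · rw [e, chi, sat_atomF] at h
      exact h
    · obtain ⟨r, hr⟩ := Nat.exists_eq_succ_of_ne_zero (Nat.pos_iff_ne_zero.1 e)
      rw [hr, Nat.succ_eq_add_one, sat_chi_succ] at h
      exact h.1
  · intro j hj a b h
    have e : k - j = (k - (j + 1)) + 1 := by omega
    rw [e, sat_chi_succ] at h
    exact h.2

end Char

/-- the condition of the frozen statement: every finite graph with a `k`-round system is isomorphic to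
`T` -/
def Rigid {n : ℕ} (T : SimpleGraph (Fin n)) (k : ℕ) : Prop :=
  ∀ (m : ℕ) (H : SimpleGraph (Fin m)),
    (∃ R : (j : ℕ) → (Fin j → Fin n) → (Fin j → Fin m) → Prop,
      R 0 Fin.elim0 Fin.elim0 ∧ Sys T H k R) → Nonempty (T ≃g H)

theorem rigid_iff {n : ℕ} (T : SimpleGraph (Fin n)) (k : ℕ) :
    Rigid T k ↔ ∃ φ : Language.graph.Sentence, Defines φ T ∧ qDepth φ ≤ k := by
  constructor
  · intro h
    refine ⟨chi T k (default : Fin 0 → Fin n), ⟨sat_chi_self T k _, ?_⟩, qDepth_chi T k _⟩
    intro W _ H hH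
    haveI := Fintype.ofFinite W
    let e : W ≃ Fin (Fintype.card W) := Fintype.equivFin W
    let H' : SimpleGraph (Fin (Fintype.card W)) := H.map e.toEmbedding
    have i : H ≃g H' := SimpleGraph.Iso.map e H
    have hH' := (holds_iso i _).1 hH
    obtain ⟨f⟩ := h _ H' ⟨_, by
      have : Sat H' (chi T k (default : Fin 0 → Fin n)) default := hH'
      have e1 : (Fin.elim0 : Fin 0 → Fin n) = default := Subsingleton.elim _ _
      have e2 : (Fin.elim0 : Fin 0 → Fin (Fintype.card W)) = default := Subsingleton.elim _ _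
      change Sat H' (chi T (k - 0) Fin.elim0) Fin.elim0
      rw [e1, e2]
      exact this, sys_of_chi T H' k⟩
    exact ⟨f.trans i.symm⟩
  · rintro ⟨φ, ⟨h1, h2⟩, h3⟩ m H ⟨R, hR0, hR⟩
    apply h2
    have := sat_iff_of_sys hR φ (by omega) Fin.elim0 Fin.elim0 hR0
    have e1 : (Fin.elim0 : Fin 0 → Fin n) = default := Subsingleton.elim _ _
    have e2 : (Fin.elim0 : Fin 0 → Fin m) = default := Subsingleton.elim _ _
    rw [e1, e2] at this
    exact this.1 h1

/-- A graph with `n` vertices is determined by `n + 1` rounds. -/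
theorem rigid_card {n : ℕ} (T : SimpleGraph (Fin n)) : Rigid T (n + 1) := by
  rintro m H ⟨R, hR0, hR⟩
  have key : ∀ j, ∀ hj : j ≤ n, ∃ b : Fin j → Fin m, R j (fun i => Fin.castLE hj i) b := by
    intro j
    induction j with
    | zero =>
      intro _
      refine ⟨Fin.elim0, ?_⟩
      have e : (fun i : Fin 0 => Fin.castLE (Nat.zero_le n) i) = Fin.elim0 := Subsingleton.elim _ _
      rw [e]
      exact hR0
    | succ j ih =>
      intro hj
      obtain ⟨b, hb⟩ := ih (by omega)
      obtain ⟨w, hw⟩ := (hR.2 j (by omega) _ _ hb).1 ⟨j, hj⟩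
      refine ⟨Fin.snoc (α := fun _ => Fin m) b w, ?_⟩
      convert hw using 1
      funext i
      refine Fin.lastCases ?_ (fun i => ?_) i
      · simp [Fin.ext_iff]
      · simp [Fin.ext_iff]
  obtain ⟨b, hb⟩ := key n le_rfl
  have ea : (fun i : Fin n => Fin.castLE le_rfl i) = id := by funext i; simp
  rw [ea] at hb
  have hp := hR.1 n (by omega) _ _ hb
  have hinj : Function.Injective b := fun i i' h => (hp i i').1.2 h
  have hsurj : Function.Surjective b := by
    intro w
    obtain ⟨v, hv⟩ := (hR.2 n (by omega) _ _ hb).2 w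
    have hq := hR.1 (n + 1) le_rfl _ _ hv
    refine ⟨v, ?_⟩
    have := (hq (Fin.castSucc v) (Fin.last n)).1.1 (by simp)
    simpa using this
  refine ⟨⟨Equiv.ofBijective b ⟨hinj, hsurj⟩, ?_⟩⟩
  intro i i'
  exact (hp i i').2.symm

/-- The least quantifier depth of a defining sentence is the number of the frozen statement. -/
theorem least_iff {n : ℕ} (T : SimpleGraph (Fin n)) (k : ℕ) :
    IsLeast {d : ℕ | ∃ φ : Language.graph.Sentence, Defines φ T ∧ qDepth φ = d} k ↔
      Rigid T k ∧ ∀ k' < k, ¬ Rigid T k' := by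
  constructor
  · rintro ⟨⟨φ, h1, h2⟩, h3⟩
    refine ⟨(rigid_iff T k).2 ⟨φ, h1, h2.le⟩, ?_⟩
    intro k' hk' h
    obtain ⟨ψ, h4, h5⟩ := (rigid_iff T k').1 h
    have := h3 ⟨ψ, h4, rfl⟩
    omega
  · rintro ⟨h1, h2⟩
    obtain ⟨φ, h3, h4⟩ := (rigid_iff T k).1 h1
    have hlow : ∀ ψ : Language.graph.Sentence, Defines ψ T → k ≤ qDepth ψ := by
      intro ψ hψ
      by_contra hlt
      exact h2 (qDepth ψ) (by omega) ((rigid_iff T _).2 ⟨ψ, hψ, le_rfl⟩)
    refine ⟨⟨φ, h3, le_antisymm h4 (hlow φ h3)⟩, ?_⟩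
    rintro d ⟨ψ, hψ, rfl⟩
    exact hlow ψ hψ

end Pool.Agent.Helper93.OWN
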