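import Pool.Agent.Helper93.OWN.FO
import Pool.Agent.Helper84.LD.Bridge
import Pool.Agent.Helper2.LD.All

/-! The logical depth of finite trees (least quantifier depth of a defining first-order sentence) is
not computable: literal first-order form of S15526. -/

set_option autoImplicit false

namespace Pool.Agent.Helper93.OWN

open FirstOrder FirstOrder.Language
open Pool.Agent.Helper84.LD (gr adjL FL Valid parL NonIso IsDepth)

/-- the adjacency matrix of the graph with edge list `l`, as a list of rows -/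
def rows (n : ℕ) (l : List (ℕ × ℕ)) : List (List Bool) :=
  (List.range n).map fun i => (List.range n).map fun j =>
    (decide (i ≠ j) && (decide ((i, j) ∈ l) || decide ((j, i) ∈ l)))

theorem rows_eq (n : ℕ) (l : List (ℕ × ℕ)) [DecidableRel (gr n l).Adj] :
    rows n l = List.ofFn fun i : Fin n => List.ofFn fun j : Fin n =>
      decide ((gr n l).Adj i j) := by
  have key : ∀ {α : Type} (f : ℕ → α), (List.range n).map f = List.ofFn fun i : Fin n => f i := by
    intro α f
    apply List.ext_getElem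
    · simp
    · intro i h1 h2
      simp
  unfold rows
  rw [key]
  congr 1
  funext i
  rw [key]
  congr 1
  funext j
  rw [← Bool.decide_or, ← Bool.decide_and]
  exact decide_eq_decide.2 Iff.rfl

theorem rows_primrec : Primrec₂ rows := by
  unfold rows
  have hc : Primrec₂ fun (p : (ℕ × List (ℕ × ℕ)) × ℕ) (j : ℕ) =>
      (decide (p.2 ≠ j) && (decide ((p.2, j) ∈ p.1.2) || decide ((j, p.2) ∈ p.1.2))) := by
    have hl : Primrec fun q : ((ℕ × List (ℕ × ℕ)) × ℕ) × ℕ => q.1.1.2 :=
      Primrec.snd.comp (Primrec.fst.comp Primrec.fst)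
    have hlen : Primrec fun q : ((ℕ × List (ℕ × ℕ)) × ℕ) × ℕ => q.1.1.2.length :=
      Primrec.list_length.comp hl
    have hi : Primrec fun q : ((ℕ × List (ℕ × ℕ)) × ℕ) × ℕ => q.1.2 :=
      Primrec.snd.comp Primrec.fst
    have hm : ∀ (x : ℕ × ℕ) (l : List (ℕ × ℕ)),
        @List.idxOf (ℕ × ℕ) instBEqOfDecidableEq x l < l.length ↔ x ∈ l := fun x l =>
      @List.idxOf_lt_length_iff (ℕ × ℕ) instBEqOfDecidableEq _ l x
    have h1 := Primrec.list_idxOf.comp (Primrec.pair hi Primrec.snd) hl
    have h2 := Primrec.list_idxOf.comp (Primrec.pair Primrec.snd hi) hl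
    have h3 : Primrec fun q : ((ℕ × List (ℕ × ℕ)) × ℕ) × ℕ =>
        decide ((q.1.2, q.2) ∈ q.1.1.2) :=
      (Primrec.nat_lt.comp h1 hlen).decide.of_eq fun q => decide_eq_decide.2 (hm _ _)
    have h4 : Primrec fun q : ((ℕ × List (ℕ × ℕ)) × ℕ) × ℕ =>
        decide ((q.2, q.1.2) ∈ q.1.1.2) :=
      (Primrec.nat_lt.comp h2 hlen).decide.of_eq fun q => decide_eq_decide.2 (hm _ _)
    have h5 : Primrec fun q : ((ℕ × List (ℕ × ℕ)) × ℕ) × ℕ => decide (q.1.2 ≠ q.2) :=
      (Primrec.eq.comp hi Primrec.snd).not.decide.of_eq fun q => decide_eq_decide.2 Iff.rfl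
    exact Primrec.and.comp h5 (Primrec.or.comp h3 h4)
  have hin : Primrec₂ fun (p : ℕ × List (ℕ × ℕ)) (i : ℕ) =>
      (List.range p.1).map fun j =>
        (decide (i ≠ j) && (decide ((i, j) ∈ p.2) || decide ((j, i) ∈ p.2))) :=
    Primrec.list_map (Primrec.list_range.comp (Primrec.fst.comp Primrec.fst)) hc
  exact Primrec.list_map (Primrec.list_range.comp Primrec.fst) hin

/-- `(n, l)` is the code of a tree -/
def TreeCode (x : ℕ × List (ℕ × ℕ)) : Prop :=
  ∃ p ∈ FL (x.1 + 1) (x.1 - 1), Valid p ∧ ¬ NonIso (p.length + 1) x.1 (parL p) x.2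

theorem treeCode_iff (n : ℕ) (l : List (ℕ × ℕ)) : TreeCode (n, l) ↔ (gr n l).IsTree := by
  constructor
  · rintro ⟨p, -, hv, hn⟩
    rw [Pool.Agent.Helper84.LD.nonIso_iff, not_not] at hn
    obtain ⟨e⟩ := hn
    exact (e.isTree_iff).1 (Pool.Agent.Helper84.LD.par_isTree hv)
  · intro h
    obtain ⟨p, hp, hv, hi⟩ := Pool.Agent.Helper84.LD.exists_par h
    rw [Fintype.card_fin] at hp
    refine ⟨p, ?_, hv, ?_⟩
    · rw [Pool.Agent.Helper84.LD.mem_FL]
      refine ⟨by change p.length = n - 1; omega, ?_⟩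
      intro x hx
      obtain ⟨i, hi, rfl⟩ := List.getElem_of_mem hx
      have := hv i hi
      rw [List.getD_eq_getElem _ _ hi] at this
      change p[i] < n + 1
      omega
    · rw [Pool.Agent.Helper84.LD.nonIso_iff, not_not]
      exact hi

theorem treeCode_primrec : PrimrecPred TreeCode := by
  unfold TreeCode
  refine Pool.Agent.Helper84.LD.ctx_exists_mem
    (P := fun (x : ℕ × List (ℕ × ℕ)) (p : List ℕ) =>
      Valid p ∧ ¬ NonIso (p.length + 1) x.1 (parL p) x.2) ?_ ?_
  · exact Pool.Agent.Helper84.LD.primrec_FL.comp (Primrec.succ.comp Primrec.fst)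
      (Primrec.nat_sub.comp Primrec.fst (Primrec.const 1))
  · refine PrimrecPred.and (Pool.Agent.Helper84.LD.primrec_valid.comp Primrec.snd)
      (PrimrecPred.not ?_)
    have h1 : Primrec fun z : (ℕ × List (ℕ × ℕ)) × List ℕ => z.2.length + 1 :=
      Primrec.succ.comp (Primrec.list_length.comp Primrec.snd)
    have h2 : Primrec fun z : (ℕ × List (ℕ × ℕ)) × List ℕ => z.1.1 :=
      Primrec.fst.comp Primrec.fst
    have h3 : Primrec fun z : (ℕ × List (ℕ × ℕ)) × List ℕ => parL z.2 :=
      Pool.Agent.Helper84.LD.primrec_parL.comp Primrec.snd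
    have h4 : Primrec fun z : (ℕ × List (ℕ × ℕ)) × List ℕ => z.1.2 :=
      Primrec.snd.comp Primrec.fst
    exact Pool.Agent.Helper84.LD.primrec_nonIso.comp
      (Primrec.pair (Primrec.pair h1 h2) (Primrec.pair h3 h4))

theorem firstOrderDepth :
    ¬ ∃ f : List (List Bool) →. ℕ, Partrec f ∧
      ∀ (n : ℕ) (T : SimpleGraph (Fin n)) [DecidableRel T.Adj], T.IsTree →
        ∃ d ∈ f (List.ofFn fun i : Fin n => List.ofFn fun j : Fin n => decide (T.Adj i j)),
          IsLeast {q : ℕ | ∃ φ : Language.graph.Sentence, Defines φ T ∧ qDepth φ = q} d := by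
  classical
  rintro ⟨f, hf, hD⟩
  apply Pool.Agent.Helper2.LD.main_all
  obtain ⟨D, hDp⟩ := treeCode_primrec
  let F : ℕ × List (ℕ × ℕ) →. ℕ := fun x =>
    cond (decide (TreeCode x)) (f (rows x.1 x.2)) (Part.some 0)
  have hF : Partrec F :=
    Partrec.cond hDp.to_comp (hf.comp (rows_primrec.to_comp.comp Computable.fst Computable.snd))
      (Computable.const 0).partrec
  have htree : ∀ n l, (gr n l).IsTree → ∃ d ∈ F (n, l),
      IsLeast {q : ℕ | ∃ φ : Language.graph.Sentence, Defines φ (gr n l) ∧ qDepth φ = q} d := by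
    intro n l h
    obtain ⟨d, hd, hl⟩ := hD n (gr n l) h
    rw [← rows_eq] at hd
    refine ⟨d, ?_, hl⟩
    change d ∈ cond (decide (TreeCode (n, l))) (f (rows n l)) (Part.some 0)
    rw [decide_eq_true ((treeCode_iff n l).2 h)]
    exact hd
  have hdom : ∀ x, (F x).Dom := by
    rintro ⟨n, l⟩
    by_cases h : (gr n l).IsTree
    · obtain ⟨d, hd, -⟩ := htree n l h
      exact Part.dom_iff_mem.2 ⟨d, hd⟩
    · change (cond (decide (TreeCode (n, l))) (f (rows n l)) (Part.some 0)).Dom
      rw [decide_eq_false (fun h' => h ((treeCode_iff n l).1 h'))]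
      trivial
  let g : ℕ × List (ℕ × ℕ) → ℕ := fun x => (F x).get (hdom x)
  have hg : Computable g := hF.of_eq_tot fun x => Part.get_mem (hdom x)
  refine ⟨fun n l => g (n, l), hg.comp (Computable.pair Computable.fst Computable.snd), ?_⟩
  intro n T l hT hl
  have hTg : T = gr n l := by
    ext i j
    rw [hl i j, Pool.Agent.Helper84.LD.gr_adj]
    constructor
    · intro h
      refine ⟨?_, h⟩
      intro e
      have := (hl i j).2 h
      rw [Fin.ext e] at this
      exact T.loopless.irrefl _ this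
    · exact fun h => h.2
  subst hTg
  obtain ⟨d, hd, hleast⟩ := htree n l hT
  have hgd : g (n, l) = d := Part.get_eq_of_mem hd (hdom _)
  rw [← hgd, least_iff] at hleast
  exact hleast

end Pool.Agent.Helper93.OWN
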