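import Pool.Agent.S14696

/-! The words that avoid the language of S14696 are square-free: a finite consistent word is the
trace of a configuration, and a trace contains no square. -/

set_option autoImplicit false

namespace Pool.Agent.Helper93.OWN

open Pool.Agent.S14696

section fin

variable (x : ℕ → Letter) (M : ℕ)

theorem tape_read_fin (hx : ∀ a n, a + n ≤ M → ¬ Bad (seg x a n)) (t : ℕ) (ht' : t < M) :
    tapeAt x t (ht x t) = (x t).sym := by
  classical
  by_cases hv : ∃ i < t, ht x i = ht x t
  · obtain ⟨i, hit, hi, hlast⟩ : ∃ i < t, ht x i = ht x t ∧ ∀ k, i < k → k < t → ht x k ≠ ht x t := by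
      let S := (Finset.range t).filter (fun i => ht x i = ht x t)
      have hS : S.Nonempty := by
        obtain ⟨i, hi, hi'⟩ := hv
        exact ⟨i, by simp [S, hi, hi']⟩
      have hmem := S.max'_mem hS
      simp only [S, Finset.mem_filter, Finset.mem_range] at hmem
      refine ⟨S.max' hS, hmem.1, hmem.2, ?_⟩
      intro k hk hkt hke
      have : k ≤ S.max' hS := S.le_max' k (by simp [S, hkt, hke])
      omega
    obtain ⟨n, rfl⟩ : ∃ n, t = i + 1 + n := ⟨t - (i + 1), by omega⟩
    rw [tape_visited x (ht x (i + 1 + n)) i n hi hlast]
    by_contra hne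
    have hpos : ∀ k < n, 0 < sgn (out (x i)) * (ht x (i + 1 + k) - ht x i) := by
      intro k
      induction k with
      | zero =>
        intro _
        have : ht x (i + 1 + 0) = ht x i + sgn (out (x i)) := rfl
        rw [this]
        have := sgn_sq (out (x i))
        nlinarith
      | succ k ih =>
        intro hk
        have h1 := ih (by omega)
        have h2 : ht x (i + 1 + (k + 1)) = ht x (i + 1 + k) + sgn (out (x (i + 1 + k))) := rfl
        have h3 := hlast (i + 1 + (k + 1)) (by omega) (by omega)
        rw [← hi] at h3
        rcases sgn_cases (out (x i)) with he | he <;>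
          rcases sgn_cases (out (x (i + 1 + k))) with ho | ho <;>
            rw [he] at h1 ⊢ <;> rw [ho] at h2 <;> omega
    apply hx i (n + 2) (by omega)
    have hseg : seg x i (n + 2) = x i :: (seg x (i + 1) n ++ [x (i + 1 + n)]) := by
      have h1 : seg x (i + 1) (n + 1) = seg x (i + 1) n ++ seg x (i + 1 + n) 1 := seg_append _ _ _ _
      have h2 : seg x i (n + 2) = x i :: seg x (i + 1) (n + 1) := rfl
      rw [h2, h1]
      rfl
    rw [hseg]
    refine Bad.tape _ _ _ ?_ (Ne.symm hne)
    apply exc_seg
    · intro k hk
      have h1 := hpos k hk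
      have h2 : ht x (i + 1) = ht x i + sgn (out (x i)) := rfl
      rw [h2]
      have := sgn_sq (out (x i))
      nlinarith
    · have h2 : ht x (i + 1) = ht x i + sgn (out (x i)) := rfl
      rw [← hi, h2]
      ring
  · have hv' : ∀ k < t, ht x k ≠ ht x t := by
      intro k hk hke
      exact hv ⟨k, hk, hke⟩
    rw [tape_unvisited x _ t hv']
    unfold tape0
    have hex : ∃ s, ht x s = ht x t := ⟨t, rfl⟩
    rw [dif_pos hex]
    have : Nat.find hex = t := by
      rw [Nat.find_eq_iff]
      exact ⟨rfl, fun k hk => hv' k hk⟩
    rw [this]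

theorem letter_confAt_fin (hx : ∀ a n, a + n ≤ M → ¬ Bad (seg x a n)) (t : ℕ) (ht' : t < M) :
    letter (confAt x t) = x t := by
  have h := tape_read_fin x M hx t ht'
  unfold letter confAt
  simp only [Nat.cast_zero, mul_zero, add_zero, h]

theorem step_confAt_fin (hx : ∀ a n, a + n ≤ M → ¬ Bad (seg x a n)) (t : ℕ) (ht' : t + 1 < M) :
    step (confAt x t) = confAt x (t + 1) := by
  have hlet := letter_confAt_fin x M hx t (by omega)
  have htrans : (x (t + 1)).kind = nextKind (x t) ∧ (x (t + 1)).dir = out (x t) := by
    by_contra hcon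
    exact hx t 2 (by omega) (Bad.trans _ _ hcon)
  obtain ⟨hkind, hdir⟩ := htrans
  have hht : ht x (t + 1) = ht x t + sgn (out (x t)) := rfl
  unfold step
  rw [hlet]
  by_cases hrev : rev (x t) = true
  · rw [if_pos hrev]
    have hout : out (x t) = !(x t).dir := by
      unfold out
      rw [if_pos hrev]
    apply Conf.ext
    · exact hkind.symm
    · exact (hdir.trans hout).symm
    · funext k
      change tapeAt x t (ht x t - sgn (x t).dir * (k + 1)) =
        tapeAt x (t + 1) (ht x (t + 1) + sgn (x (t + 1)).dir * k)
      rw [hht, hdir, hout, sgn_not]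
      have h1 : ht x t + -sgn (x t).dir + -sgn (x t).dir * k =
          ht x t - sgn (x t).dir * (k + 1) := by ring
      rw [h1]
      simp only [tapeAt]
      rw [Function.update_of_ne]
      rcases sgn_cases (x t).dir with he | he <;> rw [he] <;> omega
    · funext k
      cases k with
      | zero =>
        change write (x t) = tapeAt x (t + 1) (ht x (t + 1) - sgn (x (t + 1)).dir * ((0 : ℕ) + 1))
        rw [hht, hdir, hout, sgn_not]
        have h1 : ht x t + -sgn (x t).dir - -sgn (x t).dir * (((0 : ℕ) : ℤ) + 1) = ht x t := by
          push_cast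
          ring
        rw [h1]
        simp only [tapeAt]
        rw [Function.update_self]
      | succ k =>
        change tapeAt x t (ht x t + sgn (x t).dir * ((k + 1 : ℕ) : ℤ)) =
          tapeAt x (t + 1) (ht x (t + 1) - sgn (x (t + 1)).dir * (((k + 1 : ℕ) : ℤ) + 1))
        rw [hht, hdir, hout, sgn_not]
        have h1 : ht x t + -sgn (x t).dir - -sgn (x t).dir * (((k + 1 : ℕ) : ℤ) + 1) =
            ht x t + sgn (x t).dir * ((k + 1 : ℕ) : ℤ) := by ring
        rw [h1]
        simp only [tapeAt]
        rw [Function.update_of_ne]
        rcases sgn_cases (x t).dir with he | he <;> rw [he] <;> push_cast <;> omega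
  · rw [if_neg hrev]
    have hout : out (x t) = (x t).dir := by
      unfold out
      rw [if_neg hrev]
    apply Conf.ext
    · exact hkind.symm
    · exact (hdir.trans hout).symm
    · funext k
      change tapeAt x t (ht x t + sgn (x t).dir * ((k + 1 : ℕ) : ℤ)) =
        tapeAt x (t + 1) (ht x (t + 1) + sgn (x (t + 1)).dir * k)
      rw [hht, hdir, hout]
      have h1 : ht x t + sgn (x t).dir + sgn (x t).dir * k =
          ht x t + sgn (x t).dir * ((k + 1 : ℕ) : ℤ) := by
        push_cast
        ring
      rw [h1]
      simp only [tapeAt]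
      rw [Function.update_of_ne]
      rcases sgn_cases (x t).dir with he | he <;> rw [he] <;> push_cast <;> omega
    · funext k
      cases k with
      | zero =>
        change write (x t) = tapeAt x (t + 1) (ht x (t + 1) - sgn (x (t + 1)).dir * ((0 : ℕ) + 1))
        rw [hht, hdir, hout]
        have h1 : ht x t + sgn (x t).dir - sgn (x t).dir * (((0 : ℕ) : ℤ) + 1) = ht x t := by
          push_cast
          ring
        rw [h1]
        simp only [tapeAt]
        rw [Function.update_self]
      | succ k =>
        change tapeAt x t (ht x t - sgn (x t).dir * ((k : ℤ) + 1)) =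
          tapeAt x (t + 1) (ht x (t + 1) - sgn (x (t + 1)).dir * (((k + 1 : ℕ) : ℤ) + 1))
        rw [hht, hdir, hout]
        have h1 : ht x t + sgn (x t).dir - sgn (x t).dir * (((k + 1 : ℕ) : ℤ) + 1) =
            ht x t - sgn (x t).dir * ((k : ℤ) + 1) := by
          push_cast
          ring
        rw [h1]
        simp only [tapeAt]
        rw [Function.update_of_ne]
        rcases sgn_cases (x t).dir with he | he <;> rw [he] <;> push_cast <;> omega

theorem exists_conf_fin (hx : ∀ a n, a + n ≤ M → ¬ Bad (seg x a n)) :
    ∃ c : Conf, ∀ t < M, letter (step^[t] c) = x t := by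
  refine ⟨confAt x 0, ?_⟩
  have h : ∀ t < M, step^[t] (confAt x 0) = confAt x t := by
    intro t
    induction t with
    | zero => intro _; rfl
    | succ t ih =>
      intro h
      rw [Function.iterate_succ_apply', ih (by omega), step_confAt_fin x M hx t h]
  intro t h'
  rw [h t h', letter_confAt_fin x M hx t h']

end fin

/-- `m` consecutive letters of the trace of `c` agree with the letters `p` steps later -/
def Match (c : Conf) (p m : ℕ) : Prop := ∀ t < m, letter (step^[t + p] c) = letter (step^[t] c)

/-! ### Short periods, by computation -/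

/-- put a list in front of a half line -/
def app (f : List (Fin 3)) (g : ℕ → Fin 3) : ℕ → Fin 3 := f.foldr scons g

/-- All continuations of length `n` of the partially known configuration satisfy `P`. -/
def chk (P : List Letter → Bool) : ℕ → Bool → Bool → List (Fin 3) → List (Fin 3) →
    List Letter → Bool
  | 0, _, _, _, _, acc => P acc
  | n + 1, k, d, f, b, acc =>
    let go : Fin 3 → List (Fin 3) → Bool := fun s f' =>
      if rev ⟨k, d, s⟩ then
        chk P n (nextKind ⟨k, d, s⟩) (!d) b (write ⟨k, d, s⟩ :: f') (⟨k, d, s⟩ :: acc)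
      else
        chk P n (nextKind ⟨k, d, s⟩) d f' (write ⟨k, d, s⟩ :: b) (⟨k, d, s⟩ :: acc)
    match f with
    | [] => go 0 [] && go 1 [] && go 2 []
    | s :: f' => go s f'

theorem chk_sound (P : List Letter → Bool) : ∀ (n : ℕ) (k d : Bool) (f b : List (Fin 3))
    (acc : List Letter), chk P n k d f b acc = true → ∀ F B : ℕ → Fin 3,
      P ((tr ⟨k, d, app f F, app b B⟩ n).reverse ++ acc) = true := by
  intro n
  induction n with
  | zero => intro k d f b acc h F B; simpa [chk, tr] using h
  | succ n ih =>
    intro k d f b acc h F B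
    have key : ∀ (s : Fin 3) (f' : List (Fin 3)),
        (if rev ⟨k, d, s⟩ then
          chk P n (nextKind ⟨k, d, s⟩) (!d) b (write ⟨k, d, s⟩ :: f') (⟨k, d, s⟩ :: acc)
        else
          chk P n (nextKind ⟨k, d, s⟩) d f' (write ⟨k, d, s⟩ :: b) (⟨k, d, s⟩ :: acc)) = true →
        ∀ F : ℕ → Fin 3, P ((tr ⟨k, d, scons s (app f' F), app b B⟩ (n + 1)).reverse ++ acc)
          = true := by
      intro s f' h F
      have hl : letter ⟨k, d, scons s (app f' F), app b B⟩ = ⟨k, d, s⟩ := rfl
      have e : (tr ⟨k, d, scons s (app f' F), app b B⟩ (n + 1)).reverse ++ acc =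
          (tr (step ⟨k, d, scons s (app f' F), app b B⟩) n).reverse ++
            (⟨k, d, s⟩ :: acc) := by
        rw [tr, List.reverse_cons, List.append_assoc, hl]
        rfl
      rw [e]
      unfold step
      rw [hl]
      by_cases hr : rev ⟨k, d, s⟩ = true
      · rw [if_pos hr] at h ⊢
        exact ih _ _ _ _ _ h B F
      · rw [if_neg hr] at h ⊢
        exact ih _ _ _ _ _ h F B
    cases f with
    | nil =>
      rw [chk] at h
      simp only [Bool.and_eq_true] at h
      obtain ⟨⟨h0, h1⟩, h2⟩ := h
      have hF : app [] F = scons (F 0) (app [] (stl F)) := (scons_stl F).symm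
      rw [hF]
      rcases fin3_cases (F 0) with e | e | e
      · rw [e]; exact key 0 [] h0 _
      · rw [e]; exact key 1 [] h1 _
      · rw [e]; exact key 2 [] h2 _
    | cons s f' =>
      rw [chk] at h
      exact key s f' h F

theorem chk_conf (P : List Letter → Bool) (n : ℕ)
    (h : (chk P n false false [] [] [] && chk P n false true [] [] [] &&
      chk P n true false [] [] [] && chk P n true true [] [] []) = true) (c : Conf) :
    P (tr c n).reverse = true := by
  simp only [Bool.and_eq_true] at h
  obtain ⟨⟨⟨h1, h2⟩, h3⟩, h4⟩ := h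
  obtain ⟨k, d, F, B⟩ := c
  cases k <;> cases d
  · simpa [app] using chk_sound P n _ _ _ _ _ h1 F B
  · simpa [app] using chk_sound P n _ _ _ _ _ h2 F B
  · simpa [app] using chk_sound P n _ _ _ _ _ h3 F B
  · simpa [app] using chk_sound P n _ _ _ _ _ h4 F B

/-- the code of a letter -/
def code (l : Letter) : ℕ := (if l.kind then 6 else 0) + (if l.dir then 3 else 0) + l.sym.val

/-- `m` letters of `v` agree with the first `m` letters of `u` -/
def agree : ℕ → List Letter → List Letter → Bool
  | 0, _, _ => true
  | m + 1, l :: u, z :: v => code l == code z && agree m u v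
  | _, _, _ => false

/-- the reversed list does not begin with `m` matches at distance `p` -/
def noMatch (p m : ℕ) (w : List Letter) : Bool := !(agree m w.reverse (w.reverse.drop p))

theorem tr_drop (c : Conf) (n p : ℕ) : (tr c (p + n)).drop p = tr (step^[p] c) n := by
  induction p generalizing c with
  | zero => simp
  | succ p ih =>
    have : p + 1 + n = (p + n) + 1 := by omega
    rw [this, tr, List.drop_succ_cons, ih, Function.iterate_succ_apply]

theorem agree_tr (m : ℕ) : ∀ (c c' : Conf) (n n' : ℕ), m ≤ n → m ≤ n' →
    (∀ t < m, letter (step^[t] c') = letter (step^[t] c)) → agree m (tr c n) (tr c' n') = true := by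
  induction m with
  | zero => intro c c' n n' _ _ _; simp [agree]
  | succ m ih =>
    intro c c' n n' hn hn' h
    obtain ⟨n, rfl⟩ : ∃ k, n = k + 1 := ⟨n - 1, by omega⟩
    obtain ⟨n', rfl⟩ : ∃ k, n' = k + 1 := ⟨n' - 1, by omega⟩
    have h0 : letter c' = letter c := h 0 (by omega)
    simp only [tr, agree, h0, beq_self_eq_true, Bool.true_and]
    apply ih _ _ _ _ (by omega) (by omega)
    intro t ht'
    have := h (t + 1) (by omega)
    rwa [Function.iterate_succ_apply, Function.iterate_succ_apply] at this

theorem noMatch_of (p m : ℕ)
    (h : (chk (noMatch p m) (p + m) false false [] [] [] &&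
      chk (noMatch p m) (p + m) false true [] [] [] &&
      chk (noMatch p m) (p + m) true false [] [] [] &&
      chk (noMatch p m) (p + m) true true [] [] []) = true) (c : Conf) : ¬ Match c p m := by
  intro hm
  have h1 := chk_conf (noMatch p m) (p + m) h c
  unfold noMatch at h1
  rw [List.reverse_reverse, tr_drop] at h1
  rw [agree_tr m c (step^[p] c) (p + m) m (by omega) le_rfl] at h1
  · simp at h1
  · intro t ht'
    rw [← Function.iterate_add_apply]
    exact hm t ht'

theorem base1 : ∀ c, ¬ Match c 1 1 := noMatch_of 1 1 (by decide +kernel)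

theorem base2 : ∀ c, ¬ Match c 2 1 := noMatch_of 2 1 (by decide +kernel)

theorem base3 : ∀ c, ¬ Match c 3 2 := noMatch_of 3 2 (by decide +kernel)

theorem base4 : ∀ c, ¬ Match c 4 2 := noMatch_of 4 2 (by decide +kernel)

theorem base5 : ∀ c, ¬ Match c 5 2 := noMatch_of 5 2 (by decide +kernel)

theorem base6 : ∀ c, ¬ Match c 6 2 := noMatch_of 6 2 (by decide +kernel)

theorem base7 : ∀ c, ¬ Match c 7 2 := noMatch_of 7 2 (by decide +kernel)

theorem base8 : ∀ c, ¬ Match c 8 2 := noMatch_of 8 2 (by decide +kernel)

theorem base9 : ∀ c, ¬ Match c 9 6 := noMatch_of 9 6 (by decide +kernel)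

theorem base10 : ∀ c, ¬ Match c 10 7 := noMatch_of 10 7 (by decide +kernel)

theorem base11 : ∀ c, ¬ Match c 11 8 := noMatch_of 11 8 (by decide +kernel)

/-! ### The descent -/

theorem reach3 (c : Conf) : ∃ k ≤ 3, IsPhi (step^[k] c) := by
  obtain ⟨k, d, F, B⟩ := c
  cases k
  · rcases fin3_cases (B 0) with hB | hB | hB
    · rcases fin3_cases (F 0) with hF | hF | hF
      · refine ⟨2, by norm_num, ?_⟩
        cases d <;> simp [step, letter, rev, nextKind, write, IsPhi, hB, hF]
      · refine ⟨2, by norm_num, ?_⟩
        cases d <;> simp [step, letter, rev, nextKind, write, IsPhi, hB, hF]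
      · refine ⟨3, by norm_num, ?_⟩
        cases d <;> simp [step, letter, rev, nextKind, write, IsPhi, hB, hF]
    · rcases fin3_cases (F 0) with hF | hF | hF
      · refine ⟨3, by norm_num, ?_⟩
        cases d <;> simp [step, letter, rev, nextKind, write, IsPhi, hB, hF]
      · refine ⟨3, by norm_num, ?_⟩
        cases d <;> simp [step, letter, rev, nextKind, write, IsPhi, hB, hF]
      · refine ⟨3, by norm_num, ?_⟩
        cases d <;> simp [step, letter, rev, nextKind, write, IsPhi, hB, hF]
    · refine ⟨0, by norm_num, ?_⟩
      cases d <;> simp [IsPhi, hB]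
  · rcases fin3_cases (F 0) with hF | hF | hF
    · refine ⟨1, by norm_num, ?_⟩
      cases d <;> simp [step, letter, rev, nextKind, write, IsPhi, hF]
    · rcases fin3_cases (B 0) with hB | hB | hB
      · refine ⟨2, by norm_num, ?_⟩
        cases d <;> simp [step, letter, rev, nextKind, write, IsPhi, hB, hF]
      · refine ⟨2, by norm_num, ?_⟩
        cases d <;> simp [step, letter, rev, nextKind, write, IsPhi, hB, hF]
      · refine ⟨1, by norm_num, ?_⟩
        cases d <;> simp [step, letter, rev, nextKind, write, IsPhi, hB, hF]
    · refine ⟨0, by norm_num, ?_⟩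
      simp [IsPhi, hF]

theorem len_le (l : Letter) : len l ≤ 4 := by
  unfold len
  split_ifs <;> norm_num

theorem tau_succ (c : Conf) (k : ℕ) : tau c (k + 1) = tau c k + len (letter (step^[k] c)) := rfl

theorem tau_le (c : Conf) (k : ℕ) : tau c k ≤ 4 * k := by
  induction k with
  | zero => simp [tau]
  | succ k ih =>
    have := len_le (letter (step^[k] c))
    rw [tau_succ]
    omega

theorem tau_two (c : Conf) (k : ℕ) : tau c k + 5 ≤ tau c (k + 2) := by
  have h := len_two (step^[k] c)
  rw [← Function.iterate_succ_apply' step] at h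
  have h1 : tau c (k + 2) = tau c k + len (letter (step^[k] c)) +
    len (letter (step^[k + 1] c)) := rfl
  rw [h1]
  have : k.succ = k + 1 := rfl
  rw [this] at h
  omega

theorem tau_mono (c : Conf) {j k : ℕ} (h : j ≤ k) : tau c j ≤ tau c k := by
  induction h with
  | refl => exact le_rfl
  | step _ ih => exact ih.trans (Nat.le_add_right _ _)

/-- the number of consecutive matches that is excluded -/
def bnd (p : ℕ) : ℕ := if p ≤ 2 then 1 else if p ≤ 8 then 2 else p - 3

theorem bnd_le (p : ℕ) (hp : 1 ≤ p) : bnd p ≤ p := by
  unfold bnd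
  split_ifs <;> omega

theorem no_match (p : ℕ) (hp : 1 ≤ p) : ∀ c : Conf, ¬ Match c p (bnd p) := by
  induction p using Nat.strong_induction_on with
  | _ p ih =>
    rcases Nat.lt_or_ge p 12 with hsmall | hbig
    · intro c
      interval_cases p
      · exact base1 c
      · exact base2 c
      · exact base3 c
      · exact base4 c
      · exact base5 c
      · exact base6 c
      · exact base7 c
      · exact base8 c
      · exact base9 c
      · exact base10 c
      · exact base11 c
    · intro c₀ h₀
      have hb : bnd p = p - 3 := by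
        unfold bnd
        rw [if_neg (by omega), if_neg (by omega)]
      rw [hb] at h₀
      obtain ⟨k₀, hk3, hk₀⟩ := reach3 c₀
      obtain ⟨c, hc⟩ := exists_phi _ hk₀
      have hper : ∀ t, t + k₀ < p - 3 →
          letter (step^[t + p] (Phi c)) = letter (step^[t] (Phi c)) := by
        intro t ht'
        rw [← hc, ← Function.iterate_add_apply, ← Function.iterate_add_apply]
        have := h₀ (t + k₀) ht'
        rw [← this]
        congr 2
        ring
      have hphi : IsPhi (step^[p] (Phi c)) := by
        rw [isPhi_iff, ← Function.iterate_succ_apply' step]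
        have h1 := hper 0 (by omega)
        have h2 := hper 1 (by omega)
        rw [zero_add] at h1
        have h3 : p.succ = 1 + p := by omega
        rw [h3, h1, h2]
        exact (isPhi_iff (Phi c)).1 (isPhi_phi c)
      obtain ⟨k, hk⟩ := exists_tau c p hphi
      have hk4 := tau_le c k
      have hkp : k < p := by
        obtain ⟨m, rfl⟩ : ∃ m, k = m + 2 := ⟨k - 2, by omega⟩
        have := tau_gt c m
        omega
      have key : ∀ j, tau c j + 1 + k₀ < p - 3 → tau c (j + k) = tau c j + p ∧
          letter (step^[j + k] c) = letter (step^[j] c) := by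
        intro j
        have hlet : ∀ j, tau c j + 1 + k₀ < p - 3 → tau c (j + k) = tau c j + p →
            letter (step^[j + k] c) = letter (step^[j] c) := by
          intro j hj' hj
          rw [dec_phi (step^[j + k] c), dec_phi (step^[j] c), ← phi_tau, ← phi_tau, hj,
            hper _ (by omega)]
          rw [← Function.iterate_succ_apply' step, ← Function.iterate_succ_apply' step]
          have : (tau c j + p).succ = (tau c j).succ + p := by omega
          rw [this, hper _ (by omega)]
        induction j with
        | zero =>
          intro h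
          have : tau c (0 + k) = tau c 0 + p := by
            simp only [zero_add, tau]
            omega
          exact ⟨this, hlet 0 h this⟩
        | succ j ihj =>
          intro h
          have hm := tau_mono c (show j ≤ j + 1 by omega)
          have ihj' := ihj (by omega)
          have : tau c (j + 1 + k) = tau c (j + 1) + p := by
            have h1 : j + 1 + k = (j + k) + 1 := by ring
            rw [h1, tau_succ, tau_succ, ihj'.1, ihj'.2]
            ring
          exact ⟨this, hlet (j + 1) h this⟩
      refine ih k hkp (by omega) c ?_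
      intro j hj
      refine (key j ?_).2
      unfold bnd at hj
      rw [if_neg (by omega)] at hj
      split_ifs at hj with h8
      · have h1 : tau c j ≤ 4 * j := tau_le c j
        omega
      · have h1 := tau_two c j
        have h2 := tau_two c (j + 2)
        have h3 := tau_mono c (show j + 2 + 2 ≤ k by omega)
        omega

/-- Every square contains an inconsistent factor. -/
theorem square_hit (w : List Letter) (hw : w ≠ []) : ∃ v, Bad v ∧ v <:+: w ++ w := by
  by_contra hcon
  have hlen : 1 ≤ w.length := List.length_pos_iff.2 hw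
  let d : Letter := ⟨false, false, 0⟩
  have hx : ∀ a n, a + n ≤ 2 * w.length → ¬ Bad (seg (perWord d w) a n) := by
    intro a n han hbad
    apply hcon
    refine ⟨seg (perWord d w) a n, hbad, ?_⟩
    have h2 : w ++ w = (List.replicate 2 w).flatten := by simp [List.replicate]
    rw [h2, ← seg_perWord d w 2]
    exact seg_infix _ _ _ _ han
  obtain ⟨c, hc⟩ := exists_conf_fin _ _ hx
  apply no_match w.length hlen c
  intro t ht'
  have h1 := bnd_le w.length hlen
  rw [hc _ (by omega), hc _ (by omega), perWord_add]

end Pool.Agent.Helper93.OWN
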