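import Pool.Agent.Helper93.OWN.SQ1
import Pool.Agent.Helper22.FL.Big

/-! Deterministic real-time one-counter automata; the automaton of the language of S14696 and of its
code over two letters. -/

set_option autoImplicit false

namespace Pool.Agent.Helper93.OWN

open Pool.Agent.S14696

/-- A deterministic real-time one-counter automaton with input alphabet `A` and states `Q`. In each
step it reads one letter; the next state and the action on the counter (`-1`, `0` or `1`) depend on
the state, on the letter and on the truth value of: the counter is zero. -/
structure OneCounter (A Q : Type) where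
  start : Q
  next : Q → Bool → A → Q
  act : Q → Bool → A → SignType

/-- The action on the counter (truncated at zero). -/
def bump (s : SignType) (n : ℕ) : ℕ :=
  match s with
  | .neg => n - 1
  | .zero => n
  | .pos => n + 1

/-- One step: the pair of the state and the counter after the letter `x`. -/
def OneCounter.step {A Q : Type} (M : OneCounter A Q) (c : Q × ℕ) (x : A) : Q × ℕ :=
  (M.next c.1 (decide (c.2 = 0)) x, bump (M.act c.1 (decide (c.2 = 0)) x) c.2)

/-- The pair of the state and the counter after a word. -/
def OneCounter.run {A Q : Type} (M : OneCounter A Q) (c : Q × ℕ) (w : List A) : Q × ℕ :=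
  w.foldl M.step c

/-- The language is accepted by a deterministic real-time one-counter automaton: the automaton starts
with counter zero and accepts with its state. -/
def DetOneCounter {A : Type} (L : Language A) : Prop :=
  ∃ (Q : Type) (_ : Finite Q) (M : OneCounter A Q) (F : Set Q),
    L = {w | (M.run (M.start, 0) w).1 ∈ F}

section run

variable {A Q : Type} (M : OneCounter A Q)

theorem run_nil (c : Q × ℕ) : M.run c [] = c := rfl

theorem run_cons (c : Q × ℕ) (x : A) (w : List A) : M.run c (x :: w) = M.run (M.step c x) w := rfl

theorem run_app (c : Q × ℕ) (u v : List A) : M.run c (u ++ v) = M.run (M.run c u) v := by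
  unfold OneCounter.run
  rw [List.foldl_append]

end run

/-! ### The automaton over the letters of S14696 -/

/-- The states: `st l h f` after the first letter `l`; `h` is `0` just after it, `1` during the
excursion and `2` when the head is back; `f` is the truth value of: the word is accepted. -/
inductive Q12
  | start
  | st (l : Letter) (h : Fin 3) (f : Bool)
  | fin (f : Bool)
  deriving Fintype

/-- accepting states -/
def acc12 : Q12 → Bool
  | .start => false
  | .st _ _ f => f
  | .fin f => f

/-- the automaton that accepts the inconsistent words -/
def M12 : OneCounter Letter Q12 where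
  start := .start
  next q z x := match q with
    | .start => .st x 0 false
    | .st l h _ =>
      if h = 2 then .fin (decide (x.sym ≠ write l))
      else .st l (if out x ≠ out l ∧ z = true then 2 else 1)
        (decide (h = 0) && !(decide (x.kind = nextKind l ∧ x.dir = out l)))
    | .fin _ => .fin false
  act q z x := match q with
    | .start => 0
    | .st l h _ => if h = 2 then 0 else if out x = out l then 1 else if z = true then 0 else -1
    | .fin _ => 0

theorem out_ne {x : Letter} {e : Bool} (h : out x = !e) : out x ≠ e := by
  rw [h]; cases e <;> simp

theorem exc_fwd {e : Bool} {v : List Letter} (hv : Exc e v) : ∀ (l : Letter), out l = e →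
    ∀ (h : Fin 3) (f : Bool) (n : ℕ), h ≠ 2 →
    ∃ f', M12.run (.st l h f, n) v = (.st l (if n = 0 then 2 else 1) f', n - 1) := by
  induction hv with
  | base y hy =>
    intro l hl h f n hh
    have hne : out y ≠ out l := by rw [hl]; exact out_ne hy
    refine ⟨decide (h = 0) && !(decide (y.kind = nextKind l ∧ y.dir = out l)), ?_⟩
    rw [run_cons, run_nil]
    by_cases hn : n = 0
    · simp [OneCounter.step, M12, hh, hne, bump, hn]
    · simp [OneCounter.step, M12, hh, hne, bump, hn]
  | step y v w hy _ _ ihv ihw =>
    intro l hl h f n hh
    have he : out y = out l := by rw [hl, hy]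
    have h1 : ∃ f1, M12.step (.st l h f, n) y = (.st l 1 f1, n + 1) := by
      refine ⟨decide (h = 0) && !(decide (y.kind = nextKind l ∧ y.dir = out l)), ?_⟩
      simp [OneCounter.step, M12, hh, he, bump]
    obtain ⟨f1, h1⟩ := h1
    obtain ⟨f2, h2⟩ := ihv l hl 1 f1 (n + 1) (by decide)
    obtain ⟨f3, h3⟩ := ihw l hl 1 f2 n (by decide)
    refine ⟨f3, ?_⟩
    rw [run_cons, h1, run_app, h2]
    simp only [Nat.add_eq_zero_iff, one_ne_zero, and_false, if_false, Nat.add_sub_cancel]
    exact h3

/-- `v` is a concatenation of `n + 1` excursions -/
def ExcN (e : Bool) : ℕ → List Letter → Prop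
  | 0, v => Exc e v
  | n + 1, v => ∃ v₀ v₁, v = v₀ ++ v₁ ∧ Exc e v₀ ∧ ExcN e n v₁

theorem excN_up {e : Bool} {x : Letter} (hx : out x = e) {n : ℕ} {v : List Letter}
    (h : ExcN e (n + 1) v) : ExcN e n (x :: v) := by
  obtain ⟨v₀, v₁, rfl, h0, h1⟩ := h
  cases n with
  | zero => exact Exc.step x v₀ v₁ hx h0 h1
  | succ n =>
    obtain ⟨v₂, v₃, rfl, h2, h3⟩ := h1
    exact ⟨x :: (v₀ ++ v₂), v₃, by simp, Exc.step x v₀ v₂ hx h0 h2, h3⟩

theorem excN_down {e : Bool} {x : Letter} (hx : out x = !e) {n : ℕ} {v : List Letter}
    (h : ExcN e n v) : ExcN e (n + 1) (x :: v) := ⟨[x], v, rfl, Exc.base x hx, h⟩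

/-- what the states mean -/
def Inv12 (w : List Letter) : Q12 × ℕ → Prop
  | (.start, n) => w = [] ∧ n = 0
  | (.st l h f, n) => (f = true → Bad w) ∧ (h = 0 → w = [l]) ∧
      ∃ v, w = l :: v ∧ (if h = 2 then Exc (out l) v ∧ n = 0
        else ∀ v', ExcN (out l) n v' → Exc (out l) (v ++ v'))
  | (.fin f, _) => f = true → Bad w

theorem inv12 (w : List Letter) : Inv12 w (M12.run (M12.start, 0) w) := by
  induction w using List.reverseRecOn with
  | nil => exact ⟨rfl, rfl⟩
  | append_singleton w x ih =>
    rw [run_app, run_cons, run_nil]
    rcases hq : M12.run (M12.start, 0) w with ⟨q, n⟩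
    rw [hq] at ih
    cases q with
    | start =>
      obtain ⟨rfl, rfl⟩ := ih
      refine ⟨by simp, fun _ => rfl, [], rfl, ?_⟩
      rw [if_neg (by decide)]
      intro v' hv'
      exact hv'
    | fin f => exact fun h => by simp [M12] at h
    | st l h f =>
      obtain ⟨-, h0, v, rfl, hv⟩ := ih
      by_cases h2 : h = 2
      · subst h2
        rw [if_pos rfl] at hv
        change Inv12 _ (Q12.fin (decide (x.sym ≠ write l)), _)
        intro hx
        exact Bad.tape l v x hv.1 (of_decide_eq_true hx)
      · rw [if_neg h2] at hv
        have hstep : M12.step (.st l h f, n) x = (.st l (if out x ≠ out l ∧ n = 0 then 2 else 1)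
            (decide (h = 0) && !(decide (x.kind = nextKind l ∧ x.dir = out l))),
            if out x = out l then n + 1 else n - 1) := by
          by_cases ho : out x = out l
          · simp [OneCounter.step, M12, h2, ho, bump]
          · by_cases hn : n = 0
            · simp [OneCounter.step, M12, h2, ho, bump, hn]
            · simp [OneCounter.step, M12, h2, ho, bump, hn]
        rw [hstep]
        refine ⟨?_, ?_, v ++ [x], rfl, ?_⟩
        · intro hf
          simp only [Bool.and_eq_true, decide_eq_true_eq, Bool.not_eq_true',
            decide_eq_false_iff_not] at hf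
          have e := h0 hf.1
          rw [e]
          exact Bad.trans l x hf.2
        · intro h3
          exfalso
          revert h3
          split_ifs
          · decide
          · decide
        · by_cases ho : out x = out l
          · simp only [ho, ne_eq, not_true_eq_false, false_and, if_false, if_true]
            rw [if_neg (by decide)]
            intro v' hv'
            rw [List.append_assoc]
            exact hv _ (excN_up ho hv')
          · have ho' : out x = !(out l) := by
              cases h1 : out x <;> cases h3 : out l <;> simp_all
            by_cases hn : n = 0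
            · subst hn
              simp only [ho, ne_eq, not_false_eq_true, true_and, if_true, if_false]
              exact ⟨hv [x] (Exc.base x ho'), trivial⟩
            · simp only [ho, ne_eq, not_false_eq_true, true_and, hn, if_false]
              rw [if_neg (by decide)]
              obtain ⟨m, rfl⟩ : ∃ m, n = m + 1 := ⟨n - 1, by omega⟩
              intro v' hv'
              rw [List.append_assoc]
              exact hv _ (excN_down ho' hv')

/-- the automaton accepts exactly the inconsistent words -/
theorem m12_iff (w : List Letter) : acc12 (M12.run (M12.start, 0) w).1 = true ↔ Bad w := by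
  constructor
  · intro h
    have hi := inv12 w
    rcases hq : M12.run (M12.start, 0) w with ⟨q, n⟩
    rw [hq] at hi h
    cases q with
    | start => simp [acc12] at h
    | st l h' f => exact hi.1 h
    | fin f => exact hi h
  · intro h
    cases h with
    | trans l z hz =>
      change acc12 (M12.step (M12.step (M12.start, 0) l) z).1 = true
      have h1 : M12.step (M12.start, 0) l = (.st l 0 false, 0) := rfl
      rw [h1]
      simp only [OneCounter.step, M12, acc12]
      rw [if_neg (by decide)]
      simp [acc12, hz]
    | tape l v z hv hz =>
      rw [run_cons, run_app]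
      have h1 : M12.step (M12.start, 0) l = (.st l 0 false, 0) := rfl
      rw [h1]
      obtain ⟨f', h2⟩ := exc_fwd hv l rfl 0 false 0 (by decide)
      rw [h2, if_pos rfl, run_cons, run_nil]
      change decide (z.sym ≠ write l) = true
      exact decide_eq_true hz

end Pool.Agent.Helper93.OWN
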