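import Pool.Agent.Helper93.OWN.SQ2

/-! The code of the inconsistent words over two letters: the automaton and the grammar. -/

set_option autoImplicit false

namespace Pool.Agent.Helper93.OWN

open Pool.Agent.S14696

/-- number of letters `b` in the code of a letter -/
def ri (l : Letter) : ℕ := l.sym.val + 1

/-- number of letters `a` in the code of a letter -/
def rj (l : Letter) : ℕ := (if l.dir then 1 else 0) + (if l.kind then 2 else 0) + 1

/-- the letter with the code `b ^ i a ^ j` -/
def mk (i j : ℕ) : Letter :=
  ⟨decide (3 ≤ j), decide (j = 2 ∨ j = 4), ⟨(i - 1) % 3, Nat.mod_lt _ (by norm_num)⟩⟩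

theorem ri_mk {i j : ℕ} (h1 : 1 ≤ i) (h2 : i ≤ 3) : ri (mk i j) = i := by
  unfold ri mk
  simp only
  omega

theorem rj_mk {i j : ℕ} (h1 : 1 ≤ j) (h2 : j ≤ 4) : rj (mk i j) = j := by
  unfold rj mk
  interval_cases j <;> simp

theorem mk_ri_rj (l : Letter) : mk (ri l) (rj l) = l := by
  revert l
  decide

theorem ri_le (l : Letter) : ri l ≤ 3 := by
  have := l.sym.isLt
  unfold ri
  omega

theorem rj_le (l : Letter) : rj l ≤ 4 := by
  unfold rj
  split_ifs <;> norm_num

theorem letter_ext {l z : Letter} (h1 : ri l = ri z) (h2 : rj l = rj z) : l = z := by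
  rw [← mk_ri_rj l, ← mk_ri_rj z, h1, h2]

theorem fin5_succ : ∀ j : Fin 5, j ≠ 4 → (j + 1).val = j.val + 1 := by decide

theorem fin4_succ : ∀ i : Fin 4, i ≠ 3 → (i + 1).val = i.val + 1 := by decide

section code

variable {A : Type} (a b : A)

/-- the code of a letter -/
def blk (l : Letter) : List A := List.replicate (ri l) b ++ List.replicate (rj l) a

/-- the code of a word -/
def enc (u : List Letter) : List A := u.flatMap (blk a b)

/-- the language -/
inductive Lng : List A → Prop
  | word (u : List Letter) (h : Bad u) : Lng (a :: (enc a b u ++ [b]))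
  | runa : Lng (List.replicate 5 a)
  | runb : Lng (List.replicate 4 b)
  | other (c : A) (h1 : c ≠ a) (h2 : c ≠ b) : Lng [c]

theorem enc_nil : enc a b [] = [] := rfl

theorem enc_cons (l : Letter) (u : List Letter) : enc a b (l :: u) = blk a b l ++ enc a b u := rfl

theorem enc_append (u v : List Letter) : enc a b (u ++ v) = enc a b u ++ enc a b v := by
  unfold enc
  rw [List.flatMap_append]

/-! ### The automaton -/

/-- The states of the automaton of the coded language. -/
inductive QB
  | init
  | ra (i : Fin 5)
  | rb (i : Fin 4)
  | blk (s : Q12) (i : Fin 4) (j : Fin 5)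
  | acc
  | dead
  deriving Fintype

open Classical in
/-- The automaton of the coded language. -/
noncomputable def MB : OneCounter A QB where
  start := .init
  next q z x := match q with
    | .init => if x = a then .ra 1 else if x = b then .rb 1 else .acc
    | .ra i => if x = a then (if i = 4 then .acc else .ra (i + 1))
        else if x = b ∧ i = 1 then .blk .start 1 0 else .dead
    | .rb i => if x = b then (if i = 3 then .acc else .rb (i + 1)) else .dead
    | .blk s i j => if x = a then (if j = 4 then .dead else .blk s i (j + 1))
        else if x = b then (if j = 0 then (if i = 3 then .dead else .blk s (i + 1) 0)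
          else .blk (M12.next s z (mk i j)) 1 0)
        else .dead
    | .acc => .dead
    | .dead => .dead
  act q z x := match q with
    | .blk s i j => if x = b ∧ j ≠ 0 then M12.act s z (mk i j) else 0
    | _ => 0

/-- accepting states -/
def accB : Set QB := {q | q = .acc ∨ ∃ s, q = .blk s 1 0 ∧ acc12 s = true}

/-- what the states mean -/
def InvB (w : List A) : QB × ℕ → Prop
  | (.init, n) => w = [] ∧ n = 0
  | (.ra i, n) => w = List.replicate i.val a ∧ n = 0
  | (.rb i, _) => w = List.replicate i.val b
  | (.blk s i j, n) => 1 ≤ i.val ∧ ∃ u : List Letter,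
      w = a :: (enc a b u ++ (List.replicate i.val b ++ List.replicate j.val a)) ∧
      M12.run (M12.start, 0) u = (s, n)
  | (.acc, _) => Lng a b w
  | (.dead, _) => True

variable {a b} (hab : a ≠ b)

include hab in
theorem invB (w : List A) : InvB a b w ((MB a b).run ((MB a b).start, 0) w) := by
  induction w using List.reverseRecOn with
  | nil => exact ⟨rfl, rfl⟩
  | append_singleton w x ih =>
    rw [run_app, run_cons, run_nil]
    rcases hq : (MB a b).run ((MB a b).start, 0) w with ⟨q, n⟩
    rw [hq] at ih
    cases q with
    | init =>
      obtain ⟨rfl, rfl⟩ := ih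
      by_cases hxa : x = a
      · subst hxa
        simp only [OneCounter.step, MB, if_true, InvB, bump]
        exact ⟨rfl, trivial⟩
      · by_cases hxb : x = b
        · subst hxb
          simp only [OneCounter.step, MB, if_true, if_neg hab.symm, InvB]
          rfl
        · simp only [OneCounter.step, MB, if_neg hxa, if_neg hxb, InvB]
          exact Lng.other x hxa hxb
    | ra i =>
      obtain ⟨rfl, rfl⟩ := ih
      by_cases hxa : x = a
      · subst hxa
        by_cases hi : i = 4
        · subst hi
          simp only [OneCounter.step, MB, if_true, InvB]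
          exact Lng.runa
        · simp only [OneCounter.step, MB, if_true, if_neg hi, InvB, bump]
          refine ⟨?_, trivial⟩
          rw [fin5_succ i hi, List.replicate_succ']
      · by_cases hxb : x = b ∧ i = 1
        · obtain ⟨rfl, rfl⟩ := hxb
          simp only [OneCounter.step, MB, and_self, if_true, if_neg hab.symm, InvB, bump]
          exact ⟨le_rfl, [], rfl, rfl⟩
        · simp only [OneCounter.step, MB, if_neg hxa, if_neg hxb, InvB]
    | rb i =>
      have ih : w = List.replicate i.val b := ih
      subst ih
      by_cases hxb : x = b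
      · subst hxb
        by_cases hi : i = 3
        · subst hi
          simp only [OneCounter.step, MB, if_true, InvB]
          exact Lng.runb
        · simp only [OneCounter.step, MB, if_true, if_neg hi, InvB]
          rw [fin4_succ i hi, List.replicate_succ']
      · simp only [OneCounter.step, MB, if_neg hxb, InvB]
    | blk s i j =>
      obtain ⟨hi1, u, rfl, hu⟩ := ih
      by_cases hxa : x = a
      · subst hxa
        by_cases hj : j = 4
        · simp only [OneCounter.step, MB, if_true, hj, InvB]
        · have hb : ¬ (x = b ∧ j ≠ 0) := fun h => hab h.1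
          simp only [OneCounter.step, MB, if_true, if_neg hj, if_neg hb, InvB, bump]
          refine ⟨hi1, u, ?_, hu⟩
          have hv := fin5_succ j hj
          rw [hv, List.replicate_succ']
          simp
      · by_cases hxb : x = b
        · subst hxb
          by_cases hj : j = 0
          · subst hj
            by_cases hi : i = 3
            · simp only [OneCounter.step, MB, if_true, if_neg hxa, hi, InvB]
            · simp only [OneCounter.step, MB, if_true, if_neg hxa, if_neg hi, ne_eq,
                not_true_eq_false, and_false, if_false, InvB, bump]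
              have hv := fin4_succ i hi
              refine ⟨by omega, u, ?_, hu⟩
              rw [hv, List.replicate_succ']
              simp
          · simp only [OneCounter.step, MB, if_neg hxa, if_neg hj, ne_eq, hj, not_false_eq_true,
              and_self, if_true, InvB]
            refine ⟨le_rfl, u ++ [mk i j], ?_, ?_⟩
            · have hj1 : 1 ≤ j.val := by
                rcases Nat.eq_zero_or_pos j.val with h | h
                · exact absurd (Fin.ext h) hj
                · exact h
              have hi3 := i.isLt
              have hj4 := j.isLt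
              rw [enc_append, enc_cons, enc_nil, List.append_nil]
              unfold blk
              rw [ri_mk hi1 (by omega), rj_mk hj1 (by omega)]
              simp
            · rw [run_app, hu, run_cons, run_nil]
              rfl
        · simp only [OneCounter.step, MB, if_neg hxa, if_neg hxb, InvB]
    | acc => exact trivial
    | dead => exact trivial

/-- `b` times the code, with the first `b` removed and the next `b` added -/
def tb (a b : A) (l : Letter) : List A :=
  List.replicate l.sym.val b ++ (List.replicate (rj l) a ++ [b])

theorem enc_b (u : List Letter) : enc a b u ++ [b] = b :: u.flatMap (tb a b) := by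
  induction u with
  | nil => rfl
  | cons l u ih =>
    rw [enc_cons, List.append_assoc, ih, List.flatMap_cons]
    unfold blk tb ri
    rw [List.replicate_succ]
    simp

include hab in
theorem run_bs (s : Q12) (n k : ℕ) : ∀ i i' : Fin 4, i'.val = i.val + k →
    (MB a b).run (.blk s i 0, n) (List.replicate k b) = (.blk s i' 0, n) := by
  induction k with
  | zero =>
    intro i i' h
    rw [show i' = i from Fin.ext h]
    rfl
  | succ k ih =>
    intro i i' h
    have hi : i ≠ 3 := by
      rintro rfl
      have h1 := i'.isLt
      have h2 : (3 : Fin 4).val = 3 := rfl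
      omega
    have hs : (MB a b).step (.blk s i 0, n) b = (.blk s (i + 1) 0, n) := by
      simp only [OneCounter.step, MB, if_neg hab.symm, if_true, if_neg hi, ne_eq,
        not_true_eq_false, and_false, if_false, bump]
    rw [List.replicate_succ, run_cons, hs]
    apply ih
    rw [fin4_succ i hi, h]
    ring

include hab in
theorem run_as (s : Q12) (n k : ℕ) (i : Fin 4) : ∀ j j' : Fin 5, j'.val = j.val + k →
    (MB a b).run (.blk s i j, n) (List.replicate k a) = (.blk s i j', n) := by
  induction k with
  | zero =>
    intro j j' h
    rw [show j' = j from Fin.ext h]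
    rfl
  | succ k ih =>
    intro j j' h
    have hj : j ≠ 4 := by
      rintro rfl
      have h1 := j'.isLt
      have h2 : (4 : Fin 5).val = 4 := rfl
      omega
    have hb : ¬ (a = b ∧ j ≠ 0) := fun h => hab h.1
    have hs : (MB a b).step (.blk s i j, n) a = (.blk s i (j + 1), n) := by
      simp only [OneCounter.step, MB, if_true, if_neg hj, if_neg hb, bump]
    rw [List.replicate_succ, run_cons, hs]
    apply ih
    rw [fin5_succ j hj, h]
    ring

include hab in
theorem run_tb (s : Q12) (n : ℕ) (l : Letter) :
    (MB a b).run (.blk s 1 0, n) (tb a b l) =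
      (.blk (M12.next s (decide (n = 0)) l) 1 0, bump (M12.act s (decide (n = 0)) l) n) := by
  have h1 := ri_le l
  have h2 := rj_le l
  have h3 : 1 ≤ rj l := by unfold rj; omega
  have h4 : ri l = 1 + l.sym.val := by unfold ri; ring
  unfold tb
  rw [run_app, run_bs hab s n l.sym.val 1 ⟨ri l, by omega⟩ h4, run_app,
    run_as hab s n (rj l) _ 0 ⟨rj l, by omega⟩ (by simp), run_cons, run_nil]
  have hj : (⟨rj l, by omega⟩ : Fin 5) ≠ 0 := by
    intro h
    have := congrArg Fin.val h
    simp only [Fin.val_zero] at this
    omega
  simp only [OneCounter.step, MB, if_neg hab.symm, if_true, if_neg hj, ne_eq, hj,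
    not_false_eq_true, and_self, mk_ri_rj, if_false]

include hab in
theorem run_flat (u : List Letter) (s : Q12) (n : ℕ) :
    (MB a b).run (.blk s 1 0, n) (u.flatMap (tb a b)) =
      (.blk (M12.run (s, n) u).1 1 0, (M12.run (s, n) u).2) := by
  induction u generalizing s n with
  | nil => rfl
  | cons l u ih =>
    rw [List.flatMap_cons, run_app, run_tb hab, ih]
    rfl

include hab in
theorem accB_iff (w : List A) : ((MB a b).run ((MB a b).start, 0) w).1 ∈ accB ↔ Lng a b w := by
  constructor
  · intro h
    have hi := invB hab w
    rcases hq : (MB a b).run ((MB a b).start, 0) w with ⟨q, n⟩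
    rw [hq] at hi h
    rcases h with h | ⟨s, h, hs⟩
    · have h : q = .acc := h
      subst h
      exact hi
    · have h : q = .blk s 1 0 := h
      subst h
      obtain ⟨-, u, rfl, hu⟩ := hi
      have h1 : acc12 (M12.run (M12.start, 0) u).1 = true := by
        rw [hu]
        exact hs
      have h2 := (m12_iff u).1 h1
      exact Lng.word u h2
  · intro h
    have e1 : (MB a b).step ((MB a b).start, 0) a = (.ra 1, 0) := by
      simp only [OneCounter.step, MB, if_true, bump]
    have hra : ∀ i : Fin 5, (MB a b).step (.ra i, 0) a = (if i = 4 then .acc else .ra (i + 1), 0) := by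
      intro i
      simp only [OneCounter.step, MB, if_true, bump]
    have e2 : (MB a b).step ((MB a b).start, 0) b = (.rb 1, 0) := by
      simp only [OneCounter.step, MB, if_true, if_neg hab.symm, bump]
    have hrb : ∀ i : Fin 4, (MB a b).step (.rb i, 0) b = (if i = 3 then .acc else .rb (i + 1), 0) := by
      intro i
      simp only [OneCounter.step, MB, if_true, bump]
    cases h with
    | word u hu =>
      rw [enc_b, run_cons, e1, run_cons]
      have e3 : (MB a b).step (.ra 1, 0) b = (.blk .start 1 0, 0) := by
        simp only [OneCounter.step, MB, if_neg hab.symm, if_true, and_self, bump]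
      rw [e3, run_flat hab]
      exact Or.inr ⟨_, rfl, (m12_iff u).2 hu⟩
    | runa =>
      have r1 : (MB a b).step (.ra 1, 0) a = (.ra 2, 0) :=
        (hra 1).trans (by rw [if_neg (by decide)]; rfl)
      have r2 : (MB a b).step (.ra 2, 0) a = (.ra 3, 0) :=
        (hra 2).trans (by rw [if_neg (by decide)]; rfl)
      have r3 : (MB a b).step (.ra 3, 0) a = (.ra 4, 0) :=
        (hra 3).trans (by rw [if_neg (by decide)]; rfl)
      have r4 : (MB a b).step (.ra 4, 0) a = (.acc, 0) :=
        (hra 4).trans (by rw [if_pos rfl])
      simp only [List.replicate, run_cons, run_nil, e1, r1, r2, r3, r4]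
      exact Or.inl rfl
    | runb =>
      have r1 : (MB a b).step (.rb 1, 0) b = (.rb 2, 0) :=
        (hrb 1).trans (by rw [if_neg (by decide)]; rfl)
      have r2 : (MB a b).step (.rb 2, 0) b = (.rb 3, 0) :=
        (hrb 2).trans (by rw [if_neg (by decide)]; rfl)
      have r3 : (MB a b).step (.rb 3, 0) b = (.acc, 0) :=
        (hrb 3).trans (by rw [if_pos rfl])
      simp only [List.replicate, run_cons, run_nil, e2, r1, r2, r3]
      exact Or.inl rfl
    | other c h1 h2 =>
      simp only [run_cons, run_nil, OneCounter.step, MB, if_neg h1, if_neg h2]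
      exact Or.inl rfl

include hab in
/-- The coded language is accepted by a deterministic one-counter automaton. -/
theorem detOneCounter_lng : DetOneCounter ({w | Lng a b w} : Language A) := by
  refine ⟨QB, inferInstance, MB a b, accB, ?_⟩
  ext w
  exact (accB_iff hab w).symm

/-! ### The grammar -/

open Pool.Agent.Helper22.FL (Der lang Interp lang_sound der_nt_iff der_terms isContextFree_lang)

/-- the rules -/
def rulesB (a b : A) : Set (ContextFreeRule A (Option Bool)) :=
  (fun p : Letter × Letter => (⟨none, (a :: (enc a b [p.1, p.2] ++ [b])).map Symbol.terminal⟩ :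
      ContextFreeRule A (Option Bool))) '' {p | ¬ (p.2.kind = nextKind p.1 ∧ p.2.dir = out p.1)} ∪
  ((fun p : Letter × Letter => (⟨none, (a :: blk a b p.1).map Symbol.terminal ++
      ([Symbol.nonterminal (some (out p.1))] ++ (blk a b p.2 ++ [b]).map Symbol.terminal)⟩ :
      ContextFreeRule A (Option Bool))) '' {p | p.2.sym ≠ write p.1} ∪
  (Set.range (fun l : Letter => (⟨some (!(out l)), (blk a b l).map Symbol.terminal⟩ :
      ContextFreeRule A (Option Bool))) ∪
  (Set.range (fun l : Letter => (⟨some (out l), (blk a b l).map Symbol.terminal ++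
      ([Symbol.nonterminal (some (out l))] ++ [Symbol.nonterminal (some (out l))])⟩ :
      ContextFreeRule A (Option Bool))) ∪
  ({⟨none, (List.replicate 5 a).map Symbol.terminal⟩,
    ⟨none, (List.replicate 4 b).map Symbol.terminal⟩} ∪
  (fun c : A => (⟨none, [c].map Symbol.terminal⟩ : ContextFreeRule A (Option Bool))) ''
    {c | c ≠ a ∧ c ≠ b}))))

theorem rulesB_finite [Finite A] : (rulesB a b).Finite := by
  unfold rulesB
  exact (Set.toFinite _)

/-- the meaning of the nonterminals -/
def SemB (a b : A) : Option Bool → Language A
  | none => {w | Lng a b w}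
  | some e => {w | ∃ v, Exc e v ∧ w = enc a b v}

theorem interp_terms {I : Option Bool → Language A} {v w : List A}
    {α : List (Symbol A (Option Bool))} (h : Interp I (v.map Symbol.terminal ++ α) w) :
    ∃ w', w = v ++ w' ∧ Interp I α w' := by
  induction v generalizing w with
  | nil => exact ⟨w, rfl, h⟩
  | cons x v ih =>
    obtain ⟨w', rfl, h'⟩ := h
    obtain ⟨w'', rfl, h''⟩ := ih h'
    exact ⟨w'', rfl, h''⟩

theorem interp_terms' {I : Option Bool → Language A} {v w : List A}
    (h : Interp I (v.map Symbol.terminal) w) : w = v := by
  rw [← List.append_nil (v.map Symbol.terminal)] at h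
  obtain ⟨w', rfl, h'⟩ := interp_terms h
  have h' : w' = [] := h'
  rw [h', List.append_nil]

theorem enc_two (l z : Letter) : enc a b [l, z] = blk a b l ++ blk a b z := by
  rw [enc_cons, enc_cons, enc_nil, List.append_nil]

theorem lang_rulesB : lang (rulesB a b) none = {w | Lng a b w} := by
  ext w
  constructor
  · intro h
    refine lang_sound (SemB a b) ?_ none h
    rintro r (⟨p, hp, rfl⟩ | ⟨p, hp, rfl⟩ | ⟨l, rfl⟩ | ⟨l, rfl⟩ | (rfl | rfl) | ⟨c, hc, rfl⟩) w hw
    · rw [interp_terms' hw]
      exact Lng.word _ (Bad.trans _ _ hp)
    · obtain ⟨w', rfl, h1⟩ := interp_terms hw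
      obtain ⟨u, v, rfl, ⟨x, hx, rfl⟩, h2⟩ := h1
      rw [interp_terms' h2]
      have := Lng.word (a := a) (b := b) _ (Bad.tape _ _ _ hx hp)
      rw [enc_cons, enc_append, enc_cons, enc_nil, List.append_nil] at this
      change Lng a b _
      simpa using this
    · rw [interp_terms' hw]
      exact ⟨[l], Exc.base l (by simp), by rw [enc_cons, enc_nil, List.append_nil]⟩
    · obtain ⟨w', rfl, h1⟩ := interp_terms hw
      obtain ⟨u, v, rfl, ⟨x, hx, rfl⟩, ⟨u', v', rfl, ⟨y, hy, rfl⟩, h2⟩⟩ := h1
      have h2 : v' = [] := h2
      subst h2
      refine ⟨l :: (x ++ y), Exc.step l x y rfl hx hy, ?_⟩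
      rw [enc_cons, enc_append]
      simp
    · rw [interp_terms' hw]
      exact Lng.runa
    · rw [interp_terms' hw]
      exact Lng.runb
    · rw [interp_terms' hw]
      exact Lng.other c hc.1 hc.2
  · have hexc : ∀ e v, Exc e v → Der (rulesB a b) [Symbol.nonterminal (some e)] (enc a b v) := by
      intro e v hv
      induction hv with
      | base l h =>
        rw [der_nt_iff]
        refine ⟨⟨some (!(out l)), (blk a b l).map Symbol.terminal⟩,
          Or.inr (Or.inr (Or.inl ⟨l, rfl⟩)), ?_, ?_⟩
        · rw [h, Bool.not_not]
        · rw [enc_cons, enc_nil, List.append_nil]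
          exact der_terms _
      | step l v w h _ _ ihv ihw =>
        rw [der_nt_iff]
        refine ⟨⟨some (out l), (blk a b l).map Symbol.terminal ++
          ([Symbol.nonterminal (some (out l))] ++ [Symbol.nonterminal (some (out l))])⟩,
          Or.inr (Or.inr (Or.inr (Or.inl ⟨l, rfl⟩))), by rw [h], ?_⟩
        rw [enc_cons, enc_append, h]
        exact (der_terms _).append (ihv.append ihw)
    intro h
    change Der (rulesB a b) [Symbol.nonterminal none] w
    rw [der_nt_iff]
    cases h with
    | word u hu =>
      cases hu with
      | trans l z hz =>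
        exact ⟨_, Or.inl ⟨(l, z), hz, rfl⟩, rfl, der_terms _⟩
      | tape l v z hv hz =>
        refine ⟨_, Or.inr (Or.inl ⟨(l, z), hz, rfl⟩), rfl, ?_⟩
        have e : a :: (enc a b (l :: (v ++ [z])) ++ [b]) =
            (a :: blk a b l) ++ (enc a b v ++ (blk a b z ++ [b])) := by
          rw [enc_cons, enc_append, enc_cons, enc_nil, List.append_nil]
          simp
        rw [e]
        exact (der_terms _).append ((hexc _ _ hv).append (der_terms _))
    | runa =>
      exact ⟨_, Or.inr (Or.inr (Or.inr (Or.inr (Or.inl (Or.inl rfl))))), rfl, der_terms _⟩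
    | runb =>
      exact ⟨_, Or.inr (Or.inr (Or.inr (Or.inr (Or.inl (Or.inr rfl))))), rfl, der_terms _⟩
    | other c h1 h2 =>
      exact ⟨_, Or.inr (Or.inr (Or.inr (Or.inr (Or.inr ⟨c, ⟨h1, h2⟩, rfl⟩)))), rfl, der_terms _⟩

/-- The coded language is context-free. -/
theorem isContextFree_lng [Finite A] : Language.IsContextFree ({w | Lng a b w} : Language A) := by
  rw [← lang_rulesB]
  exact isContextFree_lang rulesB_finite none

end code

end Pool.Agent.Helper93.OWN
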