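import Pool.Agent.Helper93.OWN.SQ3

/-! The code of the inconsistent words over two letters: it is avoidable, and every fifth power
contains a word of it. -/

set_option autoImplicit false

namespace Pool.Agent.Helper93.OWN

open Pool.Agent.S14696

section words

variable {A : Type}

/-- the list does not begin with `x` -/
def NS (x : A) (E : List A) : Prop := ∀ r, E ≠ x :: r

theorem run_eq {x : A} {E E' : List A} (hE : NS x E) (hE' : NS x E') : ∀ {i i' : ℕ},
    List.replicate i x ++ E = List.replicate i' x ++ E' → i = i' ∧ E = E' := by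
  intro i
  induction i with
  | zero =>
    intro i' h
    cases i' with
    | zero => exact ⟨rfl, by simpa using h⟩
    | succ i' =>
      exfalso
      rw [List.replicate_succ] at h
      exact hE _ (by simpa using h)
  | succ i ih =>
    intro i' h
    cases i' with
    | zero =>
      exfalso
      rw [List.replicate_succ] at h
      exact hE' _ (by simpa using h.symm)
    | succ i' =>
      rw [List.replicate_succ, List.replicate_succ, List.cons_append, List.cons_append] at h
      obtain ⟨e1, e2⟩ := ih (List.cons.inj h).2
      exact ⟨by rw [e1], e2⟩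

theorem not_pre {x : A} {E : List A} (hE : NS x E) : ∀ {m k : ℕ}, k < m →
    ¬ List.replicate m x <+: List.replicate k x ++ E := by
  intro m k
  induction k generalizing m with
  | zero =>
    rintro hk ⟨t, ht⟩
    obtain ⟨m, rfl⟩ : ∃ m', m = m' + 1 := ⟨m - 1, by omega⟩
    rw [List.replicate_succ] at ht
    exact hE _ (by simpa using ht.symm)
  | succ k ih =>
    intro hk h
    obtain ⟨m, rfl⟩ : ∃ m', m = m' + 1 := ⟨m - 1, by omega⟩
    rw [List.replicate_succ, List.replicate_succ, List.cons_append,
      List.cons_prefix_cons] at h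
    exact ih (by omega) h.2

theorem skip {x y : A} (hxy : x ≠ y) {m : ℕ} (hm : 1 ≤ m) {V : List A}
    (hV : ¬ List.replicate m x <:+: V) (i : ℕ) :
    ¬ List.replicate m x <:+: List.replicate i y ++ V := by
  induction i with
  | zero => simpa using hV
  | succ i ih =>
    rw [List.replicate_succ, List.cons_append, List.infix_cons_iff]
    rintro (h | h)
    · obtain ⟨m, rfl⟩ : ∃ m', m = m' + 1 := ⟨m - 1, by omega⟩
      rw [List.replicate_succ, List.cons_prefix_cons] at h
      exact hxy h.1
    · exact ih h

theorem runs {x : A} {m : ℕ} {V : List A} (hV : ¬ List.replicate m x <:+: V) (hns : NS x V)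
    (k : ℕ) (hk : k < m) : ¬ List.replicate m x <:+: List.replicate k x ++ V := by
  induction k with
  | zero => simpa using hV
  | succ k ih =>
    intro h
    have h' := h
    rw [List.replicate_succ, List.cons_append, List.infix_cons_iff] at h
    rcases h with h | h
    · rw [← List.cons_append, ← List.replicate_succ] at h
      exact not_pre hns hk h
    · exact ih (by omega) h

variable {a b : A}

theorem rj_pos (l : Letter) : 1 ≤ rj l := by unfold rj; omega

theorem ns_enc (hab : a ≠ b) (u : List Letter) : NS a (enc a b u) := by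
  intro r h
  cases u with
  | nil => simp [enc_nil] at h
  | cons l u =>
    rw [enc_cons] at h
    unfold blk ri at h
    rw [List.replicate_succ] at h
    simp only [List.cons_append, List.cons.injEq] at h
    exact hab h.1.symm

theorem ns_a (hab : a ≠ b) {j : ℕ} (hj : 1 ≤ j) (V : List A) :
    NS b (List.replicate j a ++ V) := by
  intro r h
  obtain ⟨j, rfl⟩ : ∃ j', j = j' + 1 := ⟨j - 1, by omega⟩
  rw [List.replicate_succ] at h
  simp only [List.cons_append, List.cons.injEq] at h
  exact hab h.1

theorem enc_cons' (l : Letter) (u : List Letter) : enc a b (l :: u) =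
    List.replicate (ri l) b ++ (List.replicate (rj l) a ++ enc a b u) := by
  rw [enc_cons]
  unfold blk
  rw [List.append_assoc]

theorem no_runa (hab : a ≠ b) (u : List Letter) : ¬ List.replicate 5 a <:+: enc a b u := by
  induction u with
  | nil => simp [enc_nil]
  | cons l u ih =>
    rw [enc_cons']
    apply skip hab (by norm_num)
    have := rj_le l
    exact runs ih (ns_enc hab u) _ (by omega)

theorem no_runb (hab : a ≠ b) (u : List Letter) : ¬ List.replicate 4 b <:+: enc a b u := by
  induction u with
  | nil => simp [enc_nil]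
  | cons l u ih =>
    rw [enc_cons']
    have := ri_le l
    exact runs (skip hab.symm (by norm_num) ih _) (ns_a hab (rj_pos l) _) _ (by omega)

theorem mem_enc {c : A} {u : List Letter} (h : c ∈ enc a b u) : c = a ∨ c = b := by
  induction u with
  | nil => simp [enc_nil] at h
  | cons l u ih =>
    rw [enc_cons', List.mem_append, List.mem_append] at h
    rcases h with h | h | h
    · exact Or.inr (List.eq_of_mem_replicate h)
    · exact Or.inl (List.eq_of_mem_replicate h)
    · exact ih h

theorem no_ab (hab : a ≠ b) (j : ℕ) : ∀ (i : ℕ) (p q : List A),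
    List.replicate i b ++ List.replicate j a ≠ p ++ a :: b :: q := by
  intro i
  induction i with
  | zero =>
    intro p q h
    have h1 : b ∈ List.replicate 0 b ++ List.replicate j a := by
      rw [h]
      simp
    simp only [List.replicate_zero, List.nil_append] at h1
    exact hab (List.eq_of_mem_replicate h1).symm
  | succ i ih =>
    intro p q h
    rw [List.replicate_succ, List.cons_append] at h
    cases p with
    | nil => exact hab (List.cons.inj h).1.symm
    | cons x p => exact ih p q (List.cons.inj h).2

theorem infix_decode (hab : a ≠ b) (r : List A) (u : List Letter) : ∀ p : List A,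
    p ++ a :: b :: r = enc a b u → ∃ u₁ u₂, u = u₁ ++ u₂ ∧ b :: r = enc a b u₂ := by
  induction u with
  | nil => intro p h; simp [enc_nil] at h
  | cons l u ih =>
    intro p h
    have h1 : (p ++ [a]) ++ (b :: r) = blk a b l ++ enc a b u := by
      rw [← enc_cons, ← h]
      simp
    rcases List.append_eq_append_iff.1 h1 with ⟨a', h2, h3⟩ | ⟨c', h2, h3⟩
    · cases a' with
      | nil => exact ⟨[l], u, rfl, by simpa using h3⟩
      | cons y a' =>
        exfalso
        have hy : b = y := (List.cons.inj h3).1
        subst hy
        refine no_ab hab (rj l) (ri l) p a' ?_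
        unfold blk at h2
        rw [h2]
        simp
    · rcases List.eq_nil_or_concat c' with rfl | ⟨c'', y, rfl⟩
      · exact ⟨[l], u, rfl, by simpa using h3.symm⟩
      · rw [List.concat_eq_append, ← List.append_assoc] at h2
        rw [List.concat_eq_append] at h3
        have hy := List.append_inj_right' h2 rfl
        have hy : a = y := by simpa using hy
        subst hy
        obtain ⟨u₁, u₂, rfl, h4⟩ := ih c'' (by rw [h3]; simp)
        exact ⟨l :: u₁, u₂, rfl, h4⟩

theorem code_prefix (hab : a ≠ b) (q : List A) (v : List Letter) : ∀ u : List Letter,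
    b :: (v.flatMap (tb a b) ++ q) = enc a b u → ∃ u', u = v ++ u' := by
  induction v with
  | nil => intro u _; exact ⟨u, rfl⟩
  | cons l v ih =>
    intro u h
    cases u with
    | nil => simp [enc_nil] at h
    | cons z u =>
      have h1 : List.replicate (ri l) b ++ (List.replicate (rj l) a ++
          (b :: (v.flatMap (tb a b) ++ q))) =
          List.replicate (ri z) b ++ (List.replicate (rj z) a ++ enc a b u) := by
        rw [← enc_cons', ← h, List.flatMap_cons]
        unfold tb ri
        rw [List.replicate_succ]
        simp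
      obtain ⟨e1, h2⟩ := run_eq (ns_a hab (rj_pos l) _) (ns_a hab (rj_pos z) _) h1
      have hns : NS a (b :: (v.flatMap (tb a b) ++ q)) := by
        intro r h
        exact hab (List.cons.inj h).1.symm
      obtain ⟨e2, h3⟩ := run_eq hns (ns_enc hab u) h2
      obtain ⟨u', rfl⟩ := ih u h3
      have hl := letter_ext e1 e2
      subst hl
      exact ⟨u', rfl⟩

theorem avoid (hab : a ≠ b) (u : List Letter) (hu : ∀ v, v <:+: u → ¬ Bad v) (w : List A)
    (hw : Lng a b w) : ¬ w <:+: enc a b u := by
  intro h
  cases hw with
  | word v hv =>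
    obtain ⟨p, q, h⟩ := h
    rw [enc_b] at h
    have h1 : p ++ a :: b :: (v.flatMap (tb a b) ++ q) = enc a b u := by
      rw [← h]
      simp
    obtain ⟨u₁, u₂, rfl, h2⟩ := infix_decode hab _ u p h1
    obtain ⟨u', rfl⟩ := code_prefix hab q v u₂ h2
    refine hu v ⟨u₁, u', ?_⟩ hv
    simp
  | runa => exact no_runa hab u h
  | runb => exact no_runb hab u h
  | other c h1 h2 =>
    have hc : c ∈ enc a b u := h.subset (List.mem_singleton.2 rfl)
    rcases mem_enc hc with h3 | h3
    · exact h1 h3
    · exact h2 h3

theorem length_enc (u : List Letter) : u.length ≤ (enc a b u).length := by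
  induction u with
  | nil => simp
  | cons l u ih =>
    have := rj_pos l
    rw [enc_cons', List.length_append, List.length_append, List.length_replicate,
      List.length_replicate, List.length_cons]
    omega

theorem avoid_infinite_lng (hab : a ≠ b) :
    {u : List A | ¬ ∃ v ∈ ({w | Lng a b w} : Language A), v <:+: u}.Infinite := by
  intro hfin
  have h1 := (hfin.image List.length).bddAbove
  obtain ⟨N, hN⟩ := h1
  let c : Conf := ⟨false, false, fun _ => 0, fun _ => 0⟩
  have h2 : (enc a b (tr c (N + 1))).length ≤ N := by
    apply hN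
    refine ⟨_, ?_, rfl⟩
    rintro ⟨v, hv, hi⟩
    refine avoid hab (tr c (N + 1)) ?_ v hv hi
    rintro v ⟨s, t, hst⟩ hb
    obtain ⟨c', h⟩ := run_tr c (N + 1)
    rw [← hst] at h
    obtain ⟨c₁, h1, _⟩ := (run_append _ _ _ _).1 h
    obtain ⟨c₂, _, h2⟩ := (run_append _ _ _ _).1 h1
    exact not_bad_of_run v _ _ h2 hb
  have h3 := length_enc (a := a) (b := b) (tr c (N + 1))
  rw [tr_length] at h3
  omega

/-! ### Powers -/

theorem decode (y : List A) : (∀ c ∈ y, c = a ∨ c = b) → ¬ List.replicate 5 a <:+: y →
    ¬ List.replicate 4 b <:+: y → (y = [] ∨ ∃ z, y = z ++ [a]) →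
    y = [] ∨ ∃ (i j : ℕ) (u : List Letter),
      y = List.replicate i b ++ (List.replicate j a ++ enc a b u) ∧ i ≤ 3 ∧ 1 ≤ j ∧ j ≤ 4 := by
  induction y with
  | nil => intro _ _ _ _; exact Or.inl rfl
  | cons c y ih =>
    intro hy h5 h4 hend
    right
    have hend' : y = [] ∨ ∃ z, y = z ++ [a] := by
      rcases hend with h | ⟨z, h⟩
      · exact absurd h (by simp)
      · cases z with
        | nil => exact Or.inl (List.cons.inj h).2
        | cons x z => exact Or.inr ⟨z, (List.cons.inj h).2⟩
    rcases ih (fun x hx => hy x (List.mem_cons_of_mem _ hx))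
      (fun h => h5 (h.trans (List.suffix_cons c y).isInfix))
      (fun h => h4 (h.trans (List.suffix_cons c y).isInfix)) hend' with rfl | ⟨i, j, u, rfl, hi, hj1, hj⟩
    · rcases hend with h | ⟨z, h⟩
      · exact absurd h (by simp)
      · cases z with
        | nil =>
          rw [(List.cons.inj h).1]
          exact ⟨0, 1, [], rfl, by norm_num, le_rfl, by norm_num⟩
        | cons x z => exact absurd (List.cons.inj h).2.symm (by simp)
    · rcases hy c List.mem_cons_self with rfl | rfl
      · rcases Nat.eq_zero_or_pos i with rfl | hi1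
        · refine ⟨0, j + 1, u, by rw [List.replicate_succ]; rfl, by norm_num, by omega, ?_⟩
          by_contra hj4
          have : j = 4 := by omega
          subst this
          apply h5
          exact ⟨[], enc c b u, rfl⟩
        · refine ⟨0, 1, mk i j :: u, ?_, by norm_num, le_rfl, by norm_num⟩
          rw [enc_cons', ri_mk hi1 hi, rj_mk hj1 hj]
          rfl
      · refine ⟨i + 1, j, u, by rw [List.replicate_succ]; rfl, ?_, hj1, hj⟩
        by_contra hi4
        have : i = 3 := by omega
        subst this
        apply h4
        exact ⟨[], List.replicate j a ++ enc a c u, rfl⟩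

theorem enc_last {u : List Letter} (hu : u ≠ []) : ∃ y, enc a b u = y ++ [a] := by
  rcases List.eq_nil_or_concat u with rfl | ⟨u', l, rfl⟩
  · exact absurd rfl hu
  · rw [List.concat_eq_append, enc_append, enc_cons', enc_nil, List.append_nil]
    obtain ⟨m, hm⟩ : ∃ m, rj l = m + 1 := ⟨rj l - 1, by have := rj_pos l; omega⟩
    rw [hm, List.replicate_succ']
    exact ⟨enc a b u' ++ (List.replicate (ri l) b ++ List.replicate m a), by simp⟩

theorem enc_first {u : List Letter} (hu : u ≠ []) : ∃ y, enc a b u = b :: y := by
  cases u with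
  | nil => exact absurd rfl hu
  | cons l u =>
    rw [enc_cons']
    unfold ri
    rw [List.replicate_succ]
    exact ⟨_, rfl⟩

/-- rotation of a word with both letters -/
theorem rotate (hab : a ≠ b) {w : List A} (hw : ∀ c ∈ w, c = a ∨ c = b) (ha : a ∈ w)
    (hb : b ∈ w) : ∃ s t y z, w = s ++ t ∧ t ++ s = b :: y ∧ t ++ s = z ++ [a] := by
  -- the last letter `a`
  obtain ⟨p, q, hq, hqa⟩ : ∃ p q, w = p ++ a :: q ∧ a ∉ q := by
    classical
    have h1 := List.mem_reverse.2 ha
    obtain ⟨s, t, h2, h3⟩ := List.eq_append_cons_of_mem h1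
    refine ⟨t.reverse, s.reverse, ?_, ?_⟩
    · rw [← List.reverse_reverse w, h2]
      simp
    · simpa using h3
  rcases q with _ | ⟨x, q⟩
  · -- `w` ends with `a`; take the first letter `b`
    obtain ⟨s, t, h2, h3⟩ := List.eq_append_cons_of_mem hb
    refine ⟨s, b :: t, t ++ s, ?_⟩
    rcases List.eq_nil_or_concat s with rfl | ⟨s', x, rfl⟩
    · refine ⟨p, h2, rfl, ?_⟩
      rw [List.append_nil, ← hq, h2]
      rfl
    · have hx : x = a := by
        rcases hw x (by rw [h2]; simp) with h | h
        · exact h
        · exfalso
          apply h3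
          rw [h]
          simp
      subst hx
      exact ⟨b :: t ++ s', h2, rfl, by simp⟩
  · have hx : x = b := by
      rcases hw x (by rw [hq]; simp) with h | h
      · exfalso
        apply hqa
        rw [h]
        exact List.mem_cons_self
      · exact h
    subst hx
    exact ⟨p ++ [a], x :: q, q ++ (p ++ [a]), x :: q ++ p, by rw [hq]; simp, rfl, by simp⟩

theorem hit (hab : a ≠ b) (w : List A) (hw : w ≠ []) :
    ∃ v ∈ ({w | Lng a b w} : Language A), v <:+: (List.replicate 5 w).flatten := by
  by_contra hno
  have hno' : ∀ v, Lng a b v → ¬ v <:+: (List.replicate 5 w).flatten :=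
    fun v hv h => hno ⟨v, hv, h⟩
  have hw5 : w <:+: (List.replicate 5 w).flatten := ⟨[], w ++ w ++ w ++ w, by
    simp [List.replicate]⟩
  have hlet : ∀ c ∈ w, c = a ∨ c = b := by
    intro c hc
    by_contra h
    push Not at h
    refine hno' [c] (Lng.other c h.1 h.2) (List.IsInfix.trans ?_ hw5)
    obtain ⟨s, t, rfl⟩ := List.append_of_mem hc
    exact ⟨s, t, by simp⟩
  have hpow : ∀ (x : A) (k : ℕ), k ≤ 5 → (∀ c ∈ w, c = x) →
      List.replicate k x <:+: (List.replicate 5 w).flatten := by
    intro x k hk hx
    obtain ⟨m, hm⟩ : ∃ m, w.length = m + 1 :=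
      ⟨w.length - 1, by have := List.length_pos_iff.2 hw; omega⟩
    have e : w = List.replicate (m + 1) x := by
      rw [← hm]
      exact List.eq_replicate_of_mem hx
    have e2 : (List.replicate 5 w).flatten = List.replicate k x ++
        List.replicate (5 * (m + 1) - k) x := by
      rw [← List.replicate_add]
      have h1 : k + (5 * (m + 1) - k) = (m + 1) + ((m + 1) + ((m + 1) + ((m + 1) + (m + 1)))) := by
        omega
      rw [h1, e]
      simp only [List.replicate_add, List.replicate_succ, List.replicate_zero, List.flatten_cons,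
        List.flatten_nil, List.append_nil]
    rw [e2]
    exact ⟨[], _, rfl⟩
  have ha : a ∈ w := by
    by_contra h
    refine hno' _ Lng.runb (hpow b 4 (by norm_num) ?_)
    intro c hc
    rcases hlet c hc with rfl | rfl
    · exact absurd hc h
    · rfl
  have hb : b ∈ w := by
    by_contra h
    refine hno' _ Lng.runa (hpow a 5 le_rfl ?_)
    intro c hc
    rcases hlet c hc with rfl | rfl
    · rfl
    · exact absurd hc h
  obtain ⟨s, t, y, z, hst, hy, hz⟩ := rotate hab hlet ha hb
  have hts : t ++ s <:+: (List.replicate 5 w).flatten := by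
    rw [hst]
    exact ⟨s, t ++ s ++ (t ++ s) ++ (t ++ s) ++ t, by simp [List.replicate]⟩
  have hall : ∀ c ∈ t ++ s, c = a ∨ c = b := by
    intro c hc
    apply hlet
    rw [hst]
    rw [List.mem_append] at hc ⊢
    exact hc.symm
  obtain ⟨u, hu⟩ : ∃ u, t ++ s = enc a b u := by
    rcases decode (a := a) (b := b) (t ++ s) hall (fun h => hno' _ Lng.runa (h.trans hts))
      (fun h => hno' _ Lng.runb (h.trans hts)) (Or.inr ⟨z, hz⟩) with h | ⟨i, j, u, h, hi, hj1, hj⟩
    · rw [h] at hy
      exact absurd hy (by simp)
    · rcases Nat.eq_zero_or_pos i with rfl | hi1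
      · exfalso
        obtain ⟨j, rfl⟩ : ∃ j', j = j' + 1 := ⟨j - 1, by omega⟩
        rw [hy, List.replicate_succ] at h
        exact hab (List.cons.inj h).1.symm
      · refine ⟨mk i j :: u, ?_⟩
        rw [h, enc_cons', ri_mk hi1 hi, rj_mk hj1 hj]
  have hune : u ≠ [] := by
    rintro rfl
    rw [hu] at hy
    exact absurd hy (by simp [enc_nil])
  obtain ⟨v, hv, p, q, hpq⟩ := square_hit u hune
  obtain ⟨y1, hy1⟩ := enc_last (a := a) (b := b) (u := u ++ p) (by simp [hune])
  obtain ⟨y2, hy2⟩ := enc_first (a := a) (b := b) (u := q ++ u) (by simp [hune])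
  refine hno' _ (Lng.word v hv) ?_
  have e : (List.replicate 5 w).flatten = s ++ (enc a b (u ++ p) ++ (enc a b v ++
      enc a b (q ++ u))) ++ t := by
    have e1 : enc a b (u ++ p) ++ (enc a b v ++ enc a b (q ++ u)) =
        enc a b u ++ (enc a b u ++ (enc a b u ++ enc a b u)) := by
      rw [← enc_append, ← enc_append, ← enc_append, ← enc_append, ← enc_append]
      congr 1
      have : u ++ p ++ (v ++ (q ++ u)) = u ++ ((p ++ v ++ q) ++ u) := by simp
      rw [this, hpq]
      simp
    rw [e1, ← hu, hst]
    simp [List.replicate]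
  rw [e, hy1, hy2]
  exact ⟨s ++ y1, y2 ++ t, by simp⟩

end words

/-- For every finite alphabet with at least two letters there is a context-free language of nonempty
words, accepted by a deterministic real-time one-counter automaton, that infinitely many words avoid,
although the fifth power of every nonempty word contains a word of the language. -/
theorem exponentFive (A : Type) [Fintype A] [Nontrivial A] :
    ∃ L : Language A, L.IsContextFree ∧ DetOneCounter L ∧ (∀ v ∈ L, v ≠ []) ∧
      {u : List A | ¬ ∃ v ∈ L, v <:+: u}.Infinite ∧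
      ∀ w : List A, w ≠ [] → ∃ v ∈ L, v <:+: (List.replicate 5 w).flatten := by
  obtain ⟨a, b, hab⟩ := exists_pair_ne A
  refine ⟨{w | Lng a b w}, isContextFree_lng, detOneCounter_lng hab, ?_,
    avoid_infinite_lng hab, hit hab⟩
  rintro v hv rfl
  have hv : Lng a b [] := hv
  cases hv

end Pool.Agent.Helper93.OWN
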